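import Pool.Agent.Q69.FM.J

/-!
# First-passage percolation: the first half of the shape question and the whole question
-/

set_option autoImplicit false

open MeasureTheory ProbabilityTheory Filter
open scoped Pointwise

namespace Pool.Agent.Results.MP_de94ef_pr.LowerFluctuations

/-- The passage time from `u` to `v` for the edge weights `w`. -/
noncomputable def PassageTime (w : Sym2 (ℤ × ℤ) → ℝ) (u v : ℤ × ℤ) : ℝ :=
  sInf {s : ℝ | ∃ n : ℕ, ∃ p : ℕ → ℤ × ℤ, p 0 = u ∧ p n = v ∧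
    (∀ i < n, |(p (i + 1)).1 - (p i).1| + |(p (i + 1)).2 - (p i).2| = 1) ∧
    s = ∑ i ∈ Finset.range n, w s(p i, p (i + 1))}

/-- The weights `X e` are independent exponential variables with parameter 1, and `μ` is the time
constant: a continuous function, homogeneous of degree 1, with `T(0, n z) / n → μ z` a.s. -/
structure Model {Ω : Type} [MeasurableSpace Ω] (P : Measure Ω) (X : Sym2 (ℤ × ℤ) → Ω → ℝ)
    (μ : ℝ × ℝ → ℝ) : Prop where
  measurable : ∀ e, Measurable (X e)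
  independent : iIndepFun X P
  exponential : ∀ e, Measure.map (X e) P = expMeasure 1
  homogeneous : ∀ (x : ℝ × ℝ) (c : ℝ), 0 ≤ c → μ (c • x) = c * μ x
  continuous : Continuous μ
  limit : ∀ z : ℤ × ℤ, ∀ᵐ ω ∂P,
    Tendsto (fun n : ℕ => PassageTime (fun e => X e ω) 0 ((n : ℤ) • z) / (n : ℝ)) atTop
      (nhds (μ ((z.1 : ℝ), (z.2 : ℝ))))

/-- The norm `|v₁| + |v₂|` of a lattice point. -/
noncomputable def size (v : ℤ × ℤ) : ℝ := |(v.1 : ℝ)| + |(v.2 : ℝ)|

/-- The time constant at a lattice point. -/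
noncomputable def mu (μ : ℝ × ℝ → ℝ) (v : ℤ × ℤ) : ℝ := μ ((v.1 : ℝ), (v.2 : ℝ))

/-- The fattened cluster at time `t`. -/
def Cluster (w : Sym2 (ℤ × ℤ) → ℝ) (t : ℝ) : Set (ℝ × ℝ) :=
  {x : ℝ × ℝ | ∃ v : ℤ × ℤ, PassageTime w 0 v ≤ t ∧
    |x.1 - (v.1 : ℝ)| ≤ 1 / 2 ∧ |x.2 - (v.2 : ℝ)| ≤ 1 / 2}

section

variable {Ω : Type} [MeasurableSpace Ω] (P : Measure Ω) (X : Sym2 (ℤ × ℤ) → Ω → ℝ)
  (μ : ℝ × ℝ → ℝ)

/-- The probability that the cluster at time `t` is not contained in `(1 + r) t 𝔸`, where `𝔸` is the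
limit shape. -/
noncomputable def leaveProb (r t : ℝ) : ℝ :=
  (P {ω | ¬ (Cluster (fun e => X e ω) t ⊆ ((1 + r) * t) • {x : ℝ × ℝ | μ x ≤ 1})}).toReal

/-- The probability that the cluster at time `t` misses a part of `(1 - r) t 𝔸`. -/
noncomputable def missProb (r t : ℝ) : ℝ :=
  (P {ω | ¬ (((1 - r) * t) • {x : ℝ × ℝ | μ x ≤ 1} ⊆ Cluster (fun e => X e ω) t)}).toReal

/-- The mean of `T(0, v)`. -/
noncomputable def meanTime (v : ℤ × ℤ) : ℝ := ∫ ω, PassageTime (fun e => X e ω) 0 v ∂P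

/-- The probability that `T(0, v) < m - s`. -/
noncomputable def lowProb (m s : ℝ) (v : ℤ × ℤ) : ℝ :=
  (P {ω | PassageTime (fun e => X e ω) 0 v < m - s}).toReal

/-- The probability that `T(0, v) > m + s`. -/
noncomputable def upProb (m s : ℝ) (v : ℤ × ℤ) : ℝ :=
  (P {ω | m + s < PassageTime (fun e => X e ω) 0 v}).toReal

/-- The probability that `|T(0, v) - m| > s`. -/
noncomputable def devProb (m s : ℝ) (v : ℤ × ℤ) : ℝ :=
  (P {ω | s < |PassageTime (fun e => X e ω) 0 v - m|}).toReal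

/-- First half of the question at the exponent `b`: rapid decay. -/
def OuterRapid (b : ℝ) : Prop := ∀ ζ : ℝ, 0 < ζ → ζ < 1 - b → ∀ q : ℝ, 0 < q →
  Asymptotics.IsBigO atTop (fun t : ℝ => leaveProb P X μ (t ^ (b - 1 + ζ)) t) (fun t : ℝ => t ^ (-q))

/-- First half of the question at the exponent `b`: decay with almost the power `3 (1 - b)`. -/
def OuterPolynomial (b : ℝ) : Prop := ∀ ζ : ℝ, 0 < ζ → ζ < 1 - b →
  Asymptotics.IsBigO atTop (fun t : ℝ => leaveProb P X μ (t ^ (b - 1 + ζ)) t)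
    (fun t : ℝ => t ^ (-(3 * (1 - b)) + ζ))

/-- Second half of the question at the exponent `b`: rapid decay. -/
def InnerRapid (b : ℝ) : Prop := ∀ ζ : ℝ, 0 < ζ → ζ < 1 - b → ∀ q : ℝ, 0 < q →
  Asymptotics.IsBigO atTop (fun t : ℝ => missProb P X μ (t ^ (b - 1 + ζ)) t) (fun t : ℝ => t ^ (-q))

/-- `T(0, v) < μ(v) - |v| ^ (b + ζ)` has probability `O(|v| ^ (-3 (1 - b) + ζ))`. -/
def LowPolynomial (b : ℝ) : Prop := ∀ ζ : ℝ, 0 < ζ → ∃ C : ℝ, ∀ v : ℤ × ℤ, v ≠ 0 →
  lowProb P X (mu μ v) (size v ^ (b + ζ)) v ≤ C * size v ^ (-(3 * (1 - b)) + ζ)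

/-- `T(0, v) < μ(v) - |v| ^ (b + ζ)` has probability `O(exp(-|v| ^ κ))` for some `κ > 0`. -/
def LowStretched (b : ℝ) : Prop := ∀ ζ : ℝ, 0 < ζ → ∃ κ : ℝ, 0 < κ ∧ ∃ C : ℝ,
  ∀ v : ℤ × ℤ, v ≠ 0 → lowProb P X (mu μ v) (size v ^ (b + ζ)) v ≤ C * Real.exp (-(size v ^ κ))

/-- For large `n`, with probability at least `exp(-n ^ ζ)` all pairs of points of the box of radius
`n` satisfy `T(u, v) ≥ μ(v - u) - n ^ (b + ζ)`. -/
def BoxLow (b : ℝ) : Prop := ∀ ζ : ℝ, 0 < ζ → ∀ᶠ n : ℕ in atTop,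
  Real.exp (-((n : ℝ) ^ ζ)) ≤ (P {ω | ∀ u v : ℤ × ℤ, size u ≤ n → size v ≤ n →
    mu μ (v - u) - (n : ℝ) ^ (b + ζ) ≤ PassageTime (fun e => X e ω) u v}).toReal

/-- `T(0, v) > μ(v) + |v| ^ (b + ζ)` has probability `O(|v| ^ (-δ))` for some `δ > 0`. -/
def UpPolynomial (b : ℝ) : Prop := ∀ ζ : ℝ, 0 < ζ → ∃ δ : ℝ, 0 < δ ∧ ∃ C : ℝ,
  ∀ v : ℤ × ℤ, v ≠ 0 → upProb P X (mu μ v) (size v ^ (b + ζ)) v ≤ C * size v ^ (-δ)

/-- The nonrandom fluctuation: the mean of `T(0, v)` is at most `μ(v) + O(|v| ^ (b + ζ))`. -/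
def MeanBound (b : ℝ) : Prop := ∀ ζ : ℝ, 0 < ζ → ∃ C : ℝ, ∀ v : ℤ × ℤ, v ≠ 0 →
  meanTime P X v ≤ mu μ v + C * size v ^ (b + ζ)

/-- `T(0, v) < E T(0, v) - |v| ^ (b + ζ)` has probability `O(|v| ^ (-3 (1 - b) + ζ))`. -/
def MeanLow (b : ℝ) : Prop := ∀ ζ : ℝ, 0 < ζ → ∃ C : ℝ, ∀ v : ℤ × ℤ, v ≠ 0 →
  lowProb P X (meanTime P X v) (size v ^ (b + ζ)) v ≤ C * size v ^ (-(3 * (1 - b)) + ζ)

/-- For large `n`, with probability at least `exp(-n ^ ζ)` all pairs of points of the box of radius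
`n` satisfy `T(u, v) ≥ E T(0, v - u) - n ^ (b + ζ)`. -/
def BoxMean (b : ℝ) : Prop := ∀ ζ : ℝ, 0 < ζ → ∀ᶠ n : ℕ in atTop,
  Real.exp (-((n : ℝ) ^ ζ)) ≤ (P {ω | ∀ u v : ℤ × ℤ, size u ≤ n → size v ≤ n →
    meanTime P X (v - u) - (n : ℝ) ^ (b + ζ) ≤ PassageTime (fun e => X e ω) u v}).toReal

/-- For some numbers `m(v)`, `|T(0, v) - m(v)| > |v| ^ (b + ζ)` has probability
`O(|v| ^ (-3 (1 - b) + ζ))`. -/
def Concentrated (b : ℝ) : Prop := ∀ ζ : ℝ, 0 < ζ → ∃ m : ℤ × ℤ → ℝ, ∃ C : ℝ, ∀ v : ℤ × ℤ, v ≠ 0 →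
  devProb P X (m v) (size v ^ (b + ζ)) v ≤ C * size v ^ (-(3 * (1 - b)) + ζ)

/-- The `p`-th central moment of `T(0, v)` is `O(|v| ^ (b p + ζ))`. -/
def CentralMoment (b p : ℝ) : Prop := ∀ ζ : ℝ, 0 < ζ → ∃ C : ℝ, ∀ v : ℤ × ℤ, v ≠ 0 →
  ∫ ω, |PassageTime (fun e => X e ω) 0 v - meanTime P X v| ^ p ∂P ≤ C * size v ^ (b * p + ζ)

/-- `|T(0, v) - E T(0, v)| > s` has probability at most
`C exp (-(s / |v| ^ (b + ζ)) ^ (1 / (1 - b)))`. -/
def CentralTail (b : ℝ) : Prop := ∀ ζ : ℝ, 0 < ζ → ∃ C : ℝ, ∀ v : ℤ × ℤ, v ≠ 0 → ∀ s : ℝ, 0 < s →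
  s ≤ size v → devProb P X (meanTime P X v) s v ≤
    C * Real.exp (-((s / size v ^ (b + ζ)) ^ (1 / (1 - b))))

end

open Q70.Fp Q69.FL
open Q69.FM (hm)

lemma passage_eq (w : Sym2 (ℤ × ℤ) → ℝ) (u v : ℤ × ℤ) : PassageTime w u v = TT w u v := by
  unfold PassageTime TT
  congr 1
  ext s
  constructor
  · rintro ⟨n, p, h1, h2, h3, h4⟩
    exact ⟨n, p, ⟨h1, h2, h3⟩, h4⟩
  · rintro ⟨n, p, ⟨h1, h2, h3⟩, h4⟩
    exact ⟨n, p, h1, h2, h3, h4⟩

lemma size_eq (v : ℤ × ℤ) : size v = (dd 0 v : ℝ) := by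
  simp only [size, dd, Prod.fst_zero, Prod.snd_zero, sub_zero]
  push_cast [Nat.cast_natAbs]
  rfl

/-- a stretched exponential is smaller than a power -/
lemma exp_small {κ q : ℝ} (hκ : 0 < κ) (hq : 0 < q) :
    ∃ C : ℝ, 0 < C ∧ ∀ x : ℝ, 1 ≤ x → Real.exp (-(x ^ κ)) ≤ C * x ^ (-q) := by
  obtain ⟨C, hC, h⟩ := exp_poly (q / κ) (by positivity) (c := 1) one_pos
  refine ⟨C, hC, fun x hx => ?_⟩
  have := h (x ^ κ) (Real.one_le_rpow hx hκ.le)
  rwa [one_mul, ← Real.rpow_mul (by linarith), show κ * -(q / κ) = -q by field_simp] at this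

/-- a change of the exponent removes the constant in a stretched exponential -/
lemma exp_half {κ c x : ℝ} (hc : 0 < c) (hx : 0 < x) :
    Real.exp (-(c * x ^ κ)) ≤ Real.exp (1 / (4 * c)) * Real.exp (-(x ^ (κ / 2))) := by
  rw [← Real.exp_add]
  refine Real.exp_le_exp.2 ?_
  have e1 : x ^ κ = x ^ (κ / 2) * x ^ (κ / 2) := by
    rw [← Real.rpow_add hx]; congr 1; ring
  rw [e1]
  set y : ℝ := x ^ (κ / 2) with hy
  have e2 : 0 ≤ c * (y - 1 / (2 * c)) ^ 2 := by positivity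
  have e3 : c * (y - 1 / (2 * c)) ^ 2 = c * (y * y) - y + 1 / (4 * c) := by
    field_simp
    ring
  linarith

/-- the `p`-th power of the negative part is integrable -/
lemma neg_int {μ : ℝ × ℝ → ℝ} (hS : Shape μ) {p : ℝ} (hp : 0 < p) (v : ℤ × ℤ) :
    Integrable (fun w => max (mz μ v - TT (pw w) 0 v) 0 ^ p) nu := by
  have hm : Measurable (fun w => max (mz μ v - TT (pw w) 0 v) 0 ^ p) :=
    ((measurable_const.sub (measurable_TT 0 v)).max measurable_const).pow_const p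
  refine (integrable_const ((3 * (dd 0 v : ℝ)) ^ p)).mono' hm.aestronglyMeasurable
    (Eventually.of_forall fun w => ?_)
  have h1 := TT_nonneg (pw_nonneg w) 0 v
  have h2 := mz_up hS v
  have h0 : (0:ℝ) ≤ 3 * (dd 0 v : ℝ) := by positivity
  rw [Real.norm_eq_abs, abs_of_nonneg (by positivity)]
  exact Real.rpow_le_rpow (le_max_right _ _) (max_le (by linarith) h0) hp.le

/-- For independent exponential edge weights on the square lattice and every exponent `b` between `0`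
and `1` the first five properties are equivalent, and the last eight properties are equivalent. -/
theorem result {Ω : Type} [MeasurableSpace Ω] (P : Measure Ω) [IsProbabilityMeasure P]
    (X : Sym2 (ℤ × ℤ) → Ω → ℝ) (μ : ℝ × ℝ → ℝ) (hM : Model P X μ) (b : ℝ) (hb : 0 < b)
    (hb1 : b < 1) :
    List.TFAE [
      OuterRapid P X μ b,
      OuterPolynomial P X μ b,
      LowPolynomial P X μ b,
      LowStretched P X μ b,
      BoxLow P X μ b] ∧
    List.TFAE [
      OuterRapid P X μ b ∧ InnerRapid P X μ b,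
      LowPolynomial P X μ b ∧ UpPolynomial P X μ b,
      LowPolynomial P X μ b ∧ MeanBound P X μ b,
      MeanLow P X b,
      BoxMean P X b,
      Concentrated P X b,
      ∀ p : ℝ, 0 < p → CentralMoment P X b p,
      CentralTail P X b] := by
  have hW : Wts P X := ⟨hM.measurable, hM.independent, hM.exponential⟩
  have hS : Shape μ := hW.shape hM.homogeneous hM.continuous (by
    intro z
    filter_upwards [hM.limit z] with ω hω
    simpa only [passage_eq] using hω)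
  have hb' : 0 < 1 - b := by linarith
  -- translation of the probabilities
  have elow : ∀ m s v, lowProb P X m s v = nu.real {w | TT (pw w) 0 v < m - s} := by
    intro m s v
    have := hW.real v (measurableSet_Iio (a := m - s))
    unfold lowProb
    simp only [passage_eq]
    exact this
  have eup : ∀ m s v, upProb P X m s v = nu.real {w | m + s < TT (pw w) 0 v} := by
    intro m s v
    have := hW.real v (measurableSet_Ioi (a := m + s))
    unfold upProb
    simp only [passage_eq]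
    exact this
  have edev : ∀ m s v, devProb P X m s v = nu.real {w | s < |TT (pw w) 0 v - m|} := by
    intro m s v
    have := hW.real v (S := {x : ℝ | s < |x - m|})
      (measurableSet_lt measurable_const (continuous_abs.measurable.comp (measurable_id.sub_const _)))
    unfold devProb
    simp only [passage_eq]
    exact this
  have emean : ∀ v, meanTime P X v = hm v := by
    intro v
    unfold meanTime hm
    simp only [passage_eq]
    exact hW.int v (g := fun x => x) measurable_id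
  have emu : ∀ v, mu μ v = mz μ v := fun v => rfl
  have eleave : ∀ r t, leaveProb P X μ r t = (P (Ou X μ ((1 + r) * t) t)).toReal := by
    intro r t
    unfold leaveProb Ou Cluster
    simp only [passage_eq]
  have emiss : ∀ r t, missProb P X μ r t = (P (Fl X μ ((1 - r) * t) t)).toReal := by
    intro r t
    unfold missProb Fl Cluster
    simp only [passage_eq]
  have ecent : ∀ (p : ℝ) v, ∫ ω, |PassageTime (fun e => X e ω) 0 v - meanTime P X v| ^ p ∂P =
      ∫ w, |TT (pw w) 0 v - hm v| ^ p ∂nu := by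
    intro p v
    simp only [passage_eq, emean]
    exact hW.int v (g := fun x => |x - hm v| ^ p)
      ((continuous_abs.measurable.comp (measurable_id.sub_const _)).pow_const p)
  have hdd1 : ∀ v : ℤ × ℤ, v ≠ 0 → (1:ℝ) ≤ dd 0 v := fun v hv => by exact_mod_cast dd_pos hv
  have ebox : ∀ (f : ℤ × ℤ → ℝ) (n : ℕ) (g : ℝ),
      (P {ω | ∀ u v : ℤ × ℤ, size u ≤ n → size v ≤ n →
        f (v - u) - g ≤ PassageTime (fun e => X e ω) u v}).toReal =
      nu.real {w | ∀ u ∈ ball n 0, ∀ v ∈ ball n 0, f (v - u) - g ≤ TT (pw w) u v} := by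
    intro f n g
    have hms : MeasurableSet {w : Ed → ℝ | ∀ u ∈ ball n 0, ∀ v ∈ ball n 0,
        f (v - u) - g ≤ TT (pw w) u v} := by
      have : {w : Ed → ℝ | ∀ u ∈ ball n 0, ∀ v ∈ ball n 0, f (v - u) - g ≤ TT (pw w) u v} =
          ⋂ u ∈ ball n 0, ⋂ v ∈ ball n 0, {w | f (v - u) - g ≤ TT (pw w) u v} := by
        ext w; simp
      rw [this]
      exact Finset.measurableSet_biInter _ fun u _ => Finset.measurableSet_biInter _ fun v _ =>
        measurableSet_le measurable_const (measurable_TT _ _)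
    have hsz : ∀ u : ℤ × ℤ, size u ≤ (n:ℝ) ↔ u ∈ ball n 0 := by
      intro u
      rw [size_eq, mem_ball, Nat.cast_le]
    rw [← hW.map, map_measureReal_apply hW.measPhi hms]
    show P.real _ = _
    refine measureReal_congr ?_
    filter_upwards [hW.ae] with ω hω
    refine propext ?_
    show (∀ u v : ℤ × ℤ, size u ≤ n → size v ≤ n →
        f (v - u) - g ≤ PassageTime (fun e => X e ω) u v) ↔
      ∀ u ∈ ball n 0, ∀ v ∈ ball n 0, f (v - u) - g ≤ TT (pw (fun e => X e ω)) u v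
    rw [hω]
    simp only [passage_eq, hsz]
    constructor
    · intro h u hu v hv
      exact h u v hu hv
    · intro h u v hu hv
      exact h u hu v hv
  have hsub : Q69.FM.Sub (mz μ) :=
    ⟨mz_zero hS, Q69.FL.mz_add hS, mz_up hS, mz_lip hS, mz_low hS⟩
  -- one-point bounds in the form of the library
  have toLl : LowPolynomial P X μ b → ∀ ζ : ℝ, 0 < ζ → Ll μ (b + ζ) (3 * (1 - b) - ζ) := by
    intro h4 ζ hζ
    obtain ⟨C, hC⟩ := h4 ζ hζ
    refine ⟨max C 1, lt_max_of_lt_right one_pos, fun v hv => ?_⟩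
    have := hC v hv
    rw [elow, size_eq, show -(3 * (1 - b)) + ζ = -(3 * (1 - b) - ζ) by ring] at this
    refine this.trans ?_
    gcongr
    exact le_max_left _ _
  have fromLl : (∀ ζ : ℝ, 0 < ζ → ∃ q : ℝ, 3 * (1 - b) - ζ ≤ q ∧ Ll μ (b + ζ) q) →
      LowPolynomial P X μ b := by
    intro h4 ζ hζ
    obtain ⟨q, hq, C, hC0, hC⟩ := h4 ζ hζ
    refine ⟨C, fun v hv => ?_⟩
    rw [elow, size_eq]
    refine (hC v hv).trans (mul_le_mul_of_nonneg_left ?_ hC0.le)
    exact Real.rpow_le_rpow_of_exponent_le (hdd1 v hv) (by linarith)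
  have toSe : LowPolynomial P X μ b → ∀ a, b < a → Se μ a := by
    intro h4 a ha
    set ζ : ℝ := min ((a - b) / 2) ((1 - b) / 2) with hζ
    have h0 : 0 < ζ := lt_min (by linarith) (by linarith)
    have h1 : ζ ≤ (a - b) / 2 := min_le_left _ _
    have h2 : ζ ≤ (1 - b) / 2 := min_le_right _ _
    exact boostL hS (b0 := b + ζ) (q := 3 * (1 - b) - ζ) (by linarith) (by linarith) (by linarith)
      (by linarith) (toLl h4 ζ h0) (by linarith)
  have toTl : UpPolynomial P X μ b → ∀ ζ : ℝ, 0 < ζ → ∃ δ : ℝ, 0 < δ ∧ Tl μ (b + ζ) δ := by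
    intro h3 ζ hζ
    obtain ⟨δ, hδ, C, hC⟩ := h3 ζ hζ
    refine ⟨δ, hδ, max C 1, lt_max_of_lt_right one_pos, fun v hv => ?_⟩
    have := hC v hv
    rw [eup, size_eq] at this
    refine this.trans ?_
    gcongr
    exact le_max_left _ _
  have fromTl : (∀ ζ : ℝ, 0 < ζ → ∃ δ : ℝ, 0 < δ ∧ Tl μ (b + ζ) δ) → UpPolynomial P X μ b := by
    intro h3 ζ hζ
    obtain ⟨δ, hδ, C, -, hC⟩ := h3 ζ hζ
    refine ⟨δ, hδ, C, fun v hv => ?_⟩
    rw [eup, size_eq]
    exact hC v hv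
  have toHH : UpPolynomial P X μ b → ∀ a, b < a → HH μ a := fun h3 a ha =>
    boost hS hb hb1 (toTl h3) ha
  have fromSe : (∀ a, b < a → Se μ a) → LowStretched P X μ b := by
    intro h ζ hζ
    obtain ⟨κ, c, C, hκ, hc, hC, hU⟩ := h (b + ζ) (by linarith)
    refine ⟨κ / 2, by positivity, C * Real.exp (1 / (4 * c)), fun v hv => ?_⟩
    rw [elow, size_eq, mul_assoc]
    refine (hU v hv).trans (mul_le_mul_of_nonneg_left ?_ hC.le)
    exact exp_half hc (by linarith [hdd1 v hv])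
  have first : List.TFAE [
      OuterRapid P X μ b,
      OuterPolynomial P X μ b,
      LowPolynomial P X μ b,
      LowStretched P X μ b,
      BoxLow P X μ b] := by
    tfae_have 1 → 2 := by
      intro h1 ζ hζ hζ1
      refine (h1 ζ hζ hζ1 (3 * (1 - b)) (by linarith)).trans (Asymptotics.IsBigO.of_bound 1 ?_)
      filter_upwards [eventually_ge_atTop 1] with t ht
      have ht0 : 0 < t := by linarith
      rw [one_mul, Real.norm_eq_abs, abs_of_pos (by positivity), Real.norm_eq_abs,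
        abs_of_pos (by positivity)]
      exact Real.rpow_le_rpow_of_exponent_le ht (by linarith)
    tfae_have 2 → 3 := by
      intro h2
      refine fromLl fun ζ hζ => ?_
      set ζ' : ℝ := min ζ ((1 - b) / 2) with hζ'
      have k0 : 0 < ζ' := lt_min hζ (by linarith)
      have k1 : ζ' ≤ ζ := min_le_left _ _
      have k2 : ζ' ≤ (1 - b) / 2 := min_le_right _ _
      have hO := h2 (ζ' / 2) (by linarith) (by linarith)
      rw [show -(3 * (1 - b)) + ζ' / 2 = -(3 * (1 - b) - ζ' / 2) by ring] at hO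
      refine ⟨3 * (1 - b) - ζ' / 2, by linarith, Ll_mono (show b + ζ' ≤ b + ζ by linarith)
        (ll_of_outer hW hS hb k0 (by linarith) (by linarith) ?_)⟩
      simpa only [eleave] using hO
    tfae_have 3 → 4 := fun h4 => fromSe (toSe h4)
    tfae_have 3 → 5 := by
      intro h4 ζ hζ
      filter_upwards [Q69.FM.Bx_of_Se hsub hb (toSe h4) hζ] with n e2
      rw [← ebox (mz μ) n ((n:ℝ) ^ (b + ζ))] at e2
      exact e2
    tfae_have 5 → 4 := by
      intro h5
      refine fromSe fun a ha => Q69.FM.boostB hsub hb (fun ζ hζ => ?_) ha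
      filter_upwards [h5 ζ hζ] with n hn
      rw [← ebox (mz μ) n ((n:ℝ) ^ (b + ζ))]
      exact hn
    tfae_have 4 → 3 := by
      intro h5 ζ hζ
      obtain ⟨κ, hκ, C, hC⟩ := h5 ζ hζ
      obtain ⟨C1, hC1, hE⟩ := exp_small (q := 3 * (1 - b)) hκ (by linarith)
      refine ⟨max C 1 * C1, fun v hv => ?_⟩
      refine (hC v hv).trans ?_
      have hn := hdd1 v hv
      rw [size_eq, mul_assoc]
      have e1 := hE (dd 0 v : ℝ) hn
      have e2 : 0 < Real.exp (-((dd 0 v : ℝ) ^ κ)) := Real.exp_pos _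
      have e3 : (dd 0 v : ℝ) ^ (-(3 * (1 - b))) ≤ (dd 0 v : ℝ) ^ (-(3 * (1 - b)) + ζ) :=
        Real.rpow_le_rpow_of_exponent_le hn (by linarith)
      calc C * Real.exp (-((dd 0 v : ℝ) ^ κ)) ≤ max C 1 * Real.exp (-((dd 0 v : ℝ) ^ κ)) := by
            gcongr
            exact le_max_left _ _
        _ ≤ max C 1 * (C1 * (dd 0 v : ℝ) ^ (-(3 * (1 - b)))) := by gcongr
        _ ≤ _ := by gcongr
    tfae_have 3 → 1 := by
      intro h4 ζ hζ hζ1 q hq
      obtain ⟨κ, hκ, hU⟩ := outer_of_Se (P := P) (X := X) hW hS hb (toSe h4) hζ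
      obtain ⟨C1, hC1, hE⟩ := exp_small hκ hq
      refine Asymptotics.IsBigO.of_bound (2 * C1) ?_
      filter_upwards [hU, eventually_ge_atTop 1] with t ht ht1
      rw [eleave, Real.norm_eq_abs, abs_of_nonneg ENNReal.toReal_nonneg, Real.norm_eq_abs,
        abs_of_nonneg (by positivity)]
      have := hE t ht1
      linarith
    tfae_finish
  refine ⟨first, ?_⟩
  have o13 : OuterRapid P X μ b ↔ LowPolynomial P X μ b := first.out 0 2
  have o43 : LowStretched P X μ b ↔ LowPolynomial P X μ b := first.out 3 2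
  -- the tails
  have lowOpt : LowPolynomial P X μ b → ∀ ζ : ℝ, 0 < ζ → Opt μ b ζ := fun h ζ hζ =>
    opt_of_cum hS hb hb1 hζ (cum_of_EE hS hb (fun a ha => EE_all hS hb (toSe h) ha) (by positivity))
  have upOpt : UpPolynomial P X μ b → ∀ ζ : ℝ, 0 < ζ → OptU μ b ζ := fun h ζ hζ =>
    optU_of_cum hb hb1 hζ (cumU_of_UU hS hb
      (fun a ha => UU_all hS hb (fun a ha => boostU hS hb hb1 (toHH h) ha) ha) (by positivity))
  -- the mean
  have g1 : ∀ v, ∫ w, (TT (pw w) 0 v - mz μ v) ∂nu = hm v - mz μ v := by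
    intro v
    rw [integral_sub (integrable_TT 0 v) (integrable_const _)]
    simp [hm]
  have mean : UpPolynomial P X μ b → ∀ ζ : ℝ, 0 < ζ → ∃ C : ℝ, ∀ v : ℤ × ℤ, v ≠ 0 →
      hm v ≤ mz μ v + C * (dd 0 v : ℝ) ^ (b + ζ) := by
    intro h ζ hζ
    obtain ⟨C, hC, hU⟩ := pos_moment hS (a := b + ζ) (by linarith) (toHH h _ (by linarith)) one_pos
    refine ⟨C, fun v hv => ?_⟩
    obtain ⟨i1, e1⟩ := hU v hv
    simp only [Real.rpow_one, mul_one] at i1 e1
    have e2 : ∫ w, (TT (pw w) 0 v - mz μ v) ∂nu ≤ ∫ w, max (TT (pw w) 0 v - mz μ v) 0 ∂nu :=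
      integral_mono ((integrable_TT 0 v).sub (integrable_const _)) i1 fun w => le_max_left _ _
    have := g1 v
    linarith
  tfae_have 1 → 2 := by
    rintro ⟨h1, h2⟩
    refine ⟨o13.1 h1, fromTl (tl_of_inner hW hS hb hb1 ?_)⟩
    intro ζ hζ hζ1
    refine ⟨1, one_pos, ?_⟩
    simpa only [emiss] using h2 ζ hζ hζ1 1 one_pos
  tfae_have 2 → 1 := by
    rintro ⟨h1, h2⟩
    refine ⟨o13.2 h1, fun ζ hζ hζ1 q hq => Q69.FM.rate_t hb1 hζ hζ1 (F := missProb P X μ)
      (fun r t => ENNReal.toReal_nonneg) ?_ hq⟩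
    obtain ⟨C2, -, hC2⟩ := inner_of_opt (P := P) (X := X) hW hS hb hb1
      (show 0 < ζ / 2 by positivity) (upOpt h2 (ζ / 2 / 2) (by positivity))
    refine ⟨C2, fun t ht r hr hr1 => ?_⟩
    have e2 := hC2 t ht r hr hr1
    rw [← emiss] at e2
    exact e2
  tfae_have 2 → 8 := by
    rintro ⟨h1, h2⟩ ζ hζ
    obtain ⟨C, hC⟩ := Q69.FM.mean_tail hS hb1 (lowOpt h1) (upOpt h2) (mean h2) hb hζ
    refine ⟨C, fun v hv s hs hs1 => ?_⟩
    rw [size_eq] at hs1
    rw [edev, emean, size_eq]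
    exact hC v hv s hs hs1
  tfae_have 8 → 6 := by
    intro h7 ζ hζ
    obtain ⟨C, hC, hr⟩ := Q69.FM.rate_v hb hb1
      (F := fun s v => nu.real {w | s < |TT (pw w) 0 v - hm v|}) (by
        intro s s' v hs
        refine measureReal_mono ?_ (measure_ne_top _ _)
        intro w hw
        simp only [Set.mem_setOf_eq] at hw ⊢
        linarith) (by
        intro ζ' hζ'
        obtain ⟨C, hC⟩ := h7 ζ' hζ'
        refine ⟨C, fun v hv s hs hs1 => ?_⟩
        have := hC v hv s hs (by rw [size_eq]; exact hs1)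
        rwa [edev, emean, size_eq] at this) hζ (q := 3 * (1 - b)) (by positivity)
    refine ⟨hm, C, fun v hv => ?_⟩
    rw [edev, size_eq]
    refine (hr v hv).trans (mul_le_mul_of_nonneg_left ?_ hC.le)
    exact Real.rpow_le_rpow_of_exponent_le (hdd1 v hv) (by linarith)
  tfae_have 2 → 7 := by
    rintro ⟨h1, h2⟩ p hp ζ hζ
    have hab : b < b + ζ / p := by
      have : 0 < ζ / p := by positivity
      linarith
    obtain ⟨C1, hC1, hU⟩ := pos_moment hS (a := b + ζ / p) (by linarith) (toHH h2 _ hab) hp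
    obtain ⟨C2, hC2, hN⟩ := neg_of_Se hS (a := b + ζ / p) (by linarith) (toSe h1 _ hab) hp
    obtain ⟨C3, hC3⟩ := mean h2 (ζ / p) (by positivity)
    refine ⟨2 ^ p * (C1 + C2 + (max C3 1) ^ p), fun v hv => ?_⟩
    have hn := hdd1 v hv
    have hn0 : (0:ℝ) < dd 0 v := by linarith
    have e1 : (b + ζ / p) * p = b * p + ζ := by field_simp
    have f1 := hU v hv
    have f2 := hN v hv
    rw [e1] at f1 f2
    rw [ecent, size_eq]
    have split : ∀ x : ℝ, |x| ^ p = max x 0 ^ p + max (-x) 0 ^ p := by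
      intro x
      rcases le_total 0 x with hx | hx
      · rw [max_eq_left hx, max_eq_right (by linarith), abs_of_nonneg hx, Real.zero_rpow hp.ne',
          add_zero]
      · rw [max_eq_right hx, max_eq_left (by linarith), abs_of_nonpos hx, Real.zero_rpow hp.ne',
          zero_add]
    have habs : (fun w => |TT (pw w) 0 v - mz μ v| ^ p) =
        fun w => max (TT (pw w) 0 v - mz μ v) 0 ^ p + max (mz μ v - TT (pw w) 0 v) 0 ^ p := by
      ext w
      rw [split, neg_sub]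
    have f3 : ∫ w, |TT (pw w) 0 v - mz μ v| ^ p ∂nu ≤ (C1 + C2) * (dd 0 v : ℝ) ^ (b * p + ζ) := by
      rw [habs, integral_add f1.1 (neg_int hS hp v), add_mul]
      linarith [f1.2]
    have e0 : mz μ v ≤ hm v := mz_le_mean hS v
    have e3 : hm v - mz μ v ≤ max C3 1 * (dd 0 v : ℝ) ^ (b + ζ / p) := by
      have g1 : C3 * (dd 0 v : ℝ) ^ (b + ζ / p) ≤ max C3 1 * (dd 0 v : ℝ) ^ (b + ζ / p) := by
        gcongr
        exact le_max_left _ _
      have g2 := hC3 v hv
      linarith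
    have e4 : (hm v - mz μ v) ^ p ≤ (max C3 1) ^ p * (dd 0 v : ℝ) ^ (b * p + ζ) := by
      have g3 : (0:ℝ) ≤ max C3 1 := le_max_of_le_right zero_le_one
      refine (Real.rpow_le_rpow (by linarith) e3 hp.le).trans (le_of_eq ?_)
      rw [Real.mul_rpow g3 (by positivity), ← Real.rpow_mul hn0.le, e1]
    refine (Q69.FM.central_le hS hp hv).trans ?_
    rw [mul_assoc, add_mul]
    have e5 : (0:ℝ) ≤ 2 ^ p := by positivity
    exact mul_le_mul_of_nonneg_left (add_le_add f3 e4) e5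
  tfae_have 7 → 6 := by
    intro h6 ζ hζ
    set q : ℝ := 3 * (1 - b) + 1 with hq
    have hq0 : 0 < q := by rw [hq]; linarith
    set p : ℝ := (q + 1) / ζ with hp
    have hp0 : 0 < p := by positivity
    obtain ⟨C, hC⟩ := h6 p hp0 1 one_pos
    refine ⟨hm, max C 1, fun v hv => ?_⟩
    have h1 := hC v hv
    rw [ecent, size_eq] at h1
    have hn := hdd1 v hv
    have hn0 : (0:ℝ) < dd 0 v := by linarith
    rw [edev, size_eq]
    refine (Q69.FM.central_markov hS hp0 hv h1).trans ?_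
    have e1 : (dd 0 v : ℝ) ^ (b * p + 1) * (dd 0 v : ℝ) ^ (-((b + ζ) * p)) = (dd 0 v : ℝ) ^ (-q) := by
      rw [← Real.rpow_add hn0]
      congr 1
      have : ζ * p = q + 1 := by rw [hp]; field_simp
      linarith
    have e2 : (dd 0 v : ℝ) ^ (-q) ≤ (dd 0 v : ℝ) ^ (-(3 * (1 - b)) + ζ) :=
      Real.rpow_le_rpow_of_exponent_le hn (by rw [hq]; linarith)
    rw [mul_assoc, e1]
    calc C * (dd 0 v : ℝ) ^ (-q) ≤ max C 1 * (dd 0 v : ℝ) ^ (-q) := by
          gcongr
          exact le_max_left _ _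
      _ ≤ _ := by gcongr
  tfae_have 6 → 4 := by
    intro h5 ζ hζ
    set ζ' : ℝ := min (ζ / 2) ((1 - b) / 2) with hζ'
    have k0 : 0 < ζ' := lt_min (by linarith) (by linarith)
    have k1 : ζ' ≤ ζ / 2 := min_le_left _ _
    have k2 : ζ' ≤ (1 - b) / 2 := min_le_right _ _
    obtain ⟨m, C, hC⟩ := h5 ζ' k0
    obtain ⟨C', hC', hL⟩ := Q69.FM.low_of_conc (b := b) (ζ := ζ') (q := 3 * (1 - b) - ζ')
      (C := C) (by linarith) k0 (by linarith) m (by
        intro v hv
        have := hC v hv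
        rw [edev, size_eq, show -(3 * (1 - b)) + ζ' = -(3 * (1 - b) - ζ') by ring] at this
        exact this)
    refine ⟨C', fun v hv => ?_⟩
    have hn := hdd1 v hv
    rw [elow, emean, size_eq]
    have e1 : (dd 0 v : ℝ) ^ (b + 2 * ζ') ≤ (dd 0 v : ℝ) ^ (b + ζ) :=
      Real.rpow_le_rpow_of_exponent_le hn (by linarith)
    have e2 : (dd 0 v : ℝ) ^ (-(3 * (1 - b) - ζ')) ≤ (dd 0 v : ℝ) ^ (-(3 * (1 - b)) + ζ) :=
      Real.rpow_le_rpow_of_exponent_le hn (by linarith)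
    refine le_trans (measureReal_mono ?_ (measure_ne_top _ _)) ((hL v hv).trans
      (mul_le_mul_of_nonneg_left e2 hC'.le))
    intro w hw
    have hw' : TT (pw w) 0 v < hm v - (dd 0 v : ℝ) ^ (b + ζ) := hw
    show TT (pw w) 0 v < hm v - (dd 0 v : ℝ) ^ (b + 2 * ζ')
    linarith
  have fromSm : (∀ a, b < a → Q69.FM.Se hm a) →
      LowPolynomial P X μ b ∧ MeanBound P X μ b := by
    intro toSm
    refine ⟨o43.1 (fromSe fun a ha => ?_), ?_⟩
    · obtain ⟨κ, c, C, hκ, hc, hC, hU⟩ := toSm a ha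
      refine ⟨κ, c, C, hκ, hc, hC, fun v hv => le_trans (measureReal_mono ?_ (measure_ne_top _ _))
        (hU v hv)⟩
      intro w hw
      have hw' : TT (pw w) 0 v < mz μ v - (dd 0 v : ℝ) ^ a := hw
      have e0 : mz μ v ≤ hm v := mz_le_mean hS v
      show TT (pw w) 0 v < hm v - (dd 0 v : ℝ) ^ a
      linarith
    · intro ζ hζ
      set ζ' : ℝ := min ζ ((1 - b) / 2) with hζ'
      have k0 : 0 < ζ' := lt_min hζ (by linarith)
      have k1 : ζ' ≤ ζ := min_le_left _ _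
      have k2 : ζ' ≤ (1 - b) / 2 := min_le_right _ _
      obtain ⟨C, hC0, hC⟩ := Q69.FM.mean_bound hS (a := b + ζ') (by linarith) (by linarith)
        (toSm _ (by linarith))
      refine ⟨C, fun v hv => ?_⟩
      rw [emean, size_eq, emu]
      refine (hC v).trans ?_
      have e1 : (dd 0 v : ℝ) ^ (b + ζ') ≤ (dd 0 v : ℝ) ^ (b + ζ) :=
        Real.rpow_le_rpow_of_exponent_le (hdd1 v hv) (by linarith)
      have e2 := mul_le_mul_of_nonneg_left e1 hC0.le
      linarith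
  have toSm : MeanLow P X b → ∀ a, b < a → Q69.FM.Se hm a := by
    intro h4 a ha
    have toLm : ∀ ζ : ℝ, 0 < ζ → Q69.FM.Ll hm (b + ζ) (3 * (1 - b) - ζ) := by
      intro ζ hζ
      obtain ⟨C, hC⟩ := h4 ζ hζ
      refine ⟨max C 1, lt_max_of_lt_right one_pos, fun v hv => ?_⟩
      have := hC v hv
      rw [elow, emean, size_eq, show -(3 * (1 - b)) + ζ = -(3 * (1 - b) - ζ) by ring] at this
      refine this.trans ?_
      gcongr
      exact le_max_left _ _
    set ζ : ℝ := min ((a - b) / 2) ((1 - b) / 2) with hζ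
    have h0 : 0 < ζ := lt_min (by linarith) (by linarith)
    have h1 : ζ ≤ (a - b) / 2 := min_le_left _ _
    have h2 : ζ ≤ (1 - b) / 2 := min_le_right _ _
    exact Q69.FM.boostL (Q69.FM.hm_Sub hS) (b0 := b + ζ) (q := 3 * (1 - b) - ζ) (by linarith)
      (by linarith) (by linarith) (by linarith) (toLm ζ h0) (by linarith)
  tfae_have 4 → 3 := fun h4 => fromSm (toSm h4)
  tfae_have 4 → 5 := by
    intro h4 ζ hζ
    filter_upwards [Q69.FM.Bx_of_Se (Q69.FM.hm_Sub hS) hb (toSm h4) hζ] with n e2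
    simp only [emean]
    rw [ebox hm n ((n:ℝ) ^ (b + ζ))]
    exact e2
  tfae_have 5 → 3 := by
    intro h5
    refine fromSm fun a ha => Q69.FM.boostB (Q69.FM.hm_Sub hS) hb (fun ζ hζ => ?_) ha
    filter_upwards [h5 ζ hζ] with n hn
    simp only [emean] at hn
    rw [ebox hm n ((n:ℝ) ^ (b + ζ))] at hn
    exact hn
  tfae_have 3 → 2 := by
    rintro ⟨h1, h2⟩
    refine ⟨h1, fromTl (tl_of_moment (b := b) one_pos ?_)⟩
    intro ζ hζ
    obtain ⟨C1, hC1⟩ := h2 ζ hζ
    obtain ⟨C2, hC2, hN⟩ := neg_of_Se hS (a := b + ζ) (by linarith) (toSe h1 _ (by linarith)) one_pos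
    obtain ⟨C, -, hC⟩ := pos_moment hS (a := 2) (by norm_num) (HH_two hS) one_pos
    refine ⟨C1 + C2, fun v hv => ⟨(hC v hv).1, ?_⟩⟩
    have f1 := hC1 v hv
    have f2 := hN v hv
    have i1 := (hC v hv).1
    have i2 := neg_int hS one_pos v
    rw [emean, size_eq, emu] at f1
    rw [mul_comm b 1, one_mul]
    simp only [Real.rpow_one, mul_one] at f2 i1 i2 ⊢
    have g2 : ∫ w, (TT (pw w) 0 v - mz μ v) ∂nu = ∫ w, max (TT (pw w) 0 v - mz μ v) 0 ∂nu -
        ∫ w, max (mz μ v - TT (pw w) 0 v) 0 ∂nu := by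
      rw [← integral_sub i1 i2]
      refine integral_congr_ae (Eventually.of_forall fun w => ?_)
      show TT (pw w) 0 v - mz μ v = max (TT (pw w) 0 v - mz μ v) 0 - max (mz μ v - TT (pw w) 0 v) 0
      rcases le_total (TT (pw w) 0 v) (mz μ v) with h | h
      · rw [max_eq_right (by linarith), max_eq_left (by linarith)]; ring
      · rw [max_eq_left (by linarith), max_eq_right (by linarith)]; ring
    have := g1 v
    linarith
  tfae_finish

end Pool.Agent.Results.MP_de94ef_pr.LowerFluctuations
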