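import Pool.Agent.Q70.FpN

/-!
# First-passage percolation: the exponent of the lower tail
-/

set_option autoImplicit false

open MeasureTheory ProbabilityTheory Filter
open scoped Pointwise

namespace Pool.Agent.Results.MP_de94ef_pr.LowerTailExponent

/-- The passage time from the origin to `v` for the edge weights `w`. -/
noncomputable def PassageTime (w : Sym2 (ℤ × ℤ) → ℝ) (v : ℤ × ℤ) : ℝ :=
  sInf {s : ℝ | ∃ n : ℕ, ∃ p : ℕ → ℤ × ℤ, p 0 = 0 ∧ p n = v ∧
    (∀ i < n, |(p (i + 1)).1 - (p i).1| + |(p (i + 1)).2 - (p i).2| = 1) ∧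
    s = ∑ i ∈ Finset.range n, w s(p i, p (i + 1))}

/-- The weights `X e` are independent exponential variables with parameter 1, and `μ` is the time
constant: a continuous function, homogeneous of degree 1, with `T(0, n z) / n → μ z` a.s. -/
structure Model {Ω : Type} [MeasurableSpace Ω] (P : Measure Ω) (X : Sym2 (ℤ × ℤ) → Ω → ℝ)
    (μ : ℝ × ℝ → ℝ) : Prop where
  measurable : ∀ e, Measurable (X e)
  independent : iIndepFun X P
  exponential : ∀ e, Measure.map (X e) P = expMeasure 1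
  homogeneous : ∀ (x : ℝ × ℝ) (c : ℝ), 0 ≤ c → μ (c • x) = c * μ x
  continuous : Continuous μ
  limit : ∀ z : ℤ × ℤ, ∀ᵐ ω ∂P,
    Tendsto (fun n : ℕ => PassageTime (fun e => X e ω) ((n : ℤ) • z) / (n : ℝ)) atTop
      (nhds (μ ((z.1 : ℝ), (z.2 : ℝ))))

/-- The norm `|v₁| + |v₂|` of a lattice point. -/
noncomputable def size (v : ℤ × ℤ) : ℝ := |(v.1 : ℝ)| + |(v.2 : ℝ)|

/-- The time constant at a lattice point. -/
noncomputable def mu (μ : ℝ × ℝ → ℝ) (v : ℤ × ℤ) : ℝ := μ ((v.1 : ℝ), (v.2 : ℝ))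

/-- The fattened cluster at time `t`. -/
def Cluster (w : Sym2 (ℤ × ℤ) → ℝ) (t : ℝ) : Set (ℝ × ℝ) :=
  {x : ℝ × ℝ | ∃ v : ℤ × ℤ, PassageTime w v ≤ t ∧
    |x.1 - (v.1 : ℝ)| ≤ 1 / 2 ∧ |x.2 - (v.2 : ℝ)| ≤ 1 / 2}

section

variable {Ω : Type} [MeasurableSpace Ω] (P : Measure Ω) (X : Sym2 (ℤ × ℤ) → Ω → ℝ)
  (μ : ℝ × ℝ → ℝ)

/-- The probability that the cluster at time `t` is not contained in `(1 + r) t 𝔸`, where `𝔸` is the
limit shape. -/
noncomputable def leaveProb (r t : ℝ) : ℝ :=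
  (P {ω | ¬ (Cluster (fun e => X e ω) t ⊆ ((1 + r) * t) • {x : ℝ × ℝ | μ x ≤ 1})}).toReal

/-- The probability that `T(0, v) < μ(v) - s`. -/
noncomputable def lowProb (s : ℝ) (v : ℤ × ℤ) : ℝ :=
  (P {ω | PassageTime (fun e => X e ω) v < mu μ v - s}).toReal

/-- First half of the question at the exponent `b`: polynomial decay with a power above
`3 (1 - b)`. -/
def OuterPolynomial (b : ℝ) : Prop := ∀ ζ : ℝ, 0 < ζ → ζ < 1 - b → ∃ q : ℝ, 3 * (1 - b) < q ∧
  Asymptotics.IsBigO atTop (fun t : ℝ => leaveProb P X μ (t ^ (b - 1 + ζ)) t)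
    (fun t : ℝ => t ^ (-q))

/-- `T(0, v) < μ(v) - |v| ^ (b + ζ)` has probability `O(|v| ^ (-q))` for some `q > 3 (1 - b)`. -/
def LowPolynomial (b : ℝ) : Prop := ∀ ζ : ℝ, 0 < ζ → ∃ q : ℝ, 3 * (1 - b) < q ∧ ∃ C : ℝ,
  ∀ v : ℤ × ℤ, v ≠ 0 → lowProb P X μ (size v ^ (b + ζ)) v ≤ C * size v ^ (-q)

/-- The cluster leaves `(1 + r) t 𝔸` with probability at most
`C exp (-(r t ^ (1 - b - ζ)) ^ (1 / (1 - b)))`. -/
def OuterTail (b : ℝ) : Prop := ∀ ζ : ℝ, 0 < ζ → ∃ C : ℝ, ∀ t : ℝ, 1 ≤ t → ∀ r : ℝ, 0 ≤ r → r ≤ 1 →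
  leaveProb P X μ r t ≤ C * Real.exp (-((r * t ^ (1 - b - ζ)) ^ (1 / (1 - b))))

/-- `T(0, v) < μ(v) - s` has probability at most
`C exp (-(s / |v| ^ (b + ζ)) ^ (1 / (1 - b)))`. -/
def LowTail (b : ℝ) : Prop := ∀ ζ : ℝ, 0 < ζ → ∃ C : ℝ, ∀ v : ℤ × ℤ, v ≠ 0 → ∀ s : ℝ, 0 < s →
  lowProb P X μ s v ≤ C * Real.exp (-((s / size v ^ (b + ζ)) ^ (1 / (1 - b))))

/-- `E exp (θ (μ(v) - T(0, v))) ≤ exp (C |v| ^ ζ (1 + θ ^ (1 / b) |v|))` for `0 < θ ≤ 1`. -/
def LowMoment (b : ℝ) : Prop := ∀ ζ : ℝ, 0 < ζ → ∃ C : ℝ, ∀ v : ℤ × ℤ, v ≠ 0 → ∀ θ : ℝ, 0 < θ →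
  θ ≤ 1 → ∫ ω, Real.exp (θ * (mu μ v - PassageTime (fun e => X e ω) v)) ∂P ≤
    Real.exp (C * size v ^ ζ * (1 + θ ^ (1 / b) * size v))

end

open Q70.Fp Q69.FL

lemma passage_eq (w : Sym2 (ℤ × ℤ) → ℝ) (v : ℤ × ℤ) : PassageTime w v = TT w 0 v := by
  unfold PassageTime TT
  congr 1
  ext s
  constructor
  · rintro ⟨n, p, h1, h2, h3, h4⟩
    exact ⟨n, p, ⟨h1, h2, h3⟩, h4⟩
  · rintro ⟨n, p, ⟨h1, h2, h3⟩, h4⟩
    exact ⟨n, p, h1, h2, h3, h4⟩

lemma size_eq (v : ℤ × ℤ) : size v = (dd 0 v : ℝ) := by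
  simp only [size, dd, Prod.fst_zero, Prod.snd_zero, sub_zero]
  push_cast [Nat.cast_natAbs]
  rfl

/-- For independent exponential edge weights on the square lattice and every exponent `b` between `0`
and `1` the five properties are equivalent. -/
theorem result {Ω : Type} [MeasurableSpace Ω] (P : Measure Ω) [IsProbabilityMeasure P]
    (X : Sym2 (ℤ × ℤ) → Ω → ℝ) (μ : ℝ × ℝ → ℝ) (hM : Model P X μ) (b : ℝ) (hb : 0 < b)
    (hb1 : b < 1) :
    List.TFAE [
      OuterPolynomial P X μ b,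
      LowPolynomial P X μ b,
      OuterTail P X μ b,
      LowTail P X μ b,
      LowMoment P X μ b] := by
  have hW : Wts P X := ⟨hM.measurable, hM.independent, hM.exponential⟩
  have hS : Shape μ := hW.shape hM.homogeneous hM.continuous (by
    intro z
    filter_upwards [hM.limit z] with ω hω
    simpa only [passage_eq] using hω)
  have hb' : 0 < 1 - b := by linarith
  -- translation of the probabilities
  have elow : ∀ s v, lowProb P X μ s v = nu.real {w | TT (pw w) 0 v < mz μ v - s} := by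
    intro s v
    have := hW.real v (measurableSet_Iio (a := mz μ v - s))
    unfold lowProb
    simp only [passage_eq]
    exact this
  have eleave : ∀ r t, leaveProb P X μ r t = (P (Ou X μ ((1 + r) * t) t)).toReal := by
    intro r t
    unfold leaveProb Ou Cluster
    simp only [passage_eq]
  have emom : ∀ θ v, ∫ ω, Real.exp (θ * (mu μ v - PassageTime (fun e => X e ω) v)) ∂P =
      Real.exp (θ * mz μ v) * ph θ v := by
    intro θ v
    simp only [passage_eq]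
    have := hW.int v (g := fun x => Real.exp (θ * (mz μ v - x)))
      ((measurable_const.sub measurable_id).const_mul θ).exp
    refine this.trans ?_
    unfold ph
    rw [← integral_const_mul]
    refine integral_congr_ae (Eventually.of_forall fun w => ?_)
    simp only
    rw [← Real.exp_add]
    congr 1
    ring
  have hdd1 : ∀ v : ℤ × ℤ, v ≠ 0 → (1:ℝ) ≤ dd 0 v := fun v hv => by exact_mod_cast dd_pos hv
  have toLl : LowPolynomial P X μ b → ∀ ζ : ℝ, 0 < ζ → ∃ q : ℝ, 3 * (1 - b) < q ∧ Ll μ (b + ζ) q := by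
    intro h4 ζ hζ
    obtain ⟨q, hq, C, hC⟩ := h4 ζ hζ
    refine ⟨q, hq, max C 1, lt_max_of_lt_right one_pos, fun v hv => ?_⟩
    have := hC v hv
    rw [elow, size_eq] at this
    refine this.trans ?_
    gcongr
    exact le_max_left _ _
  have fromLl : (∀ ζ : ℝ, 0 < ζ → ∃ q : ℝ, 3 * (1 - b) < q ∧ Ll μ (b + ζ) q) →
      LowPolynomial P X μ b := by
    intro h4 ζ hζ
    obtain ⟨q, hq, C, -, hC⟩ := h4 ζ hζ
    refine ⟨q, hq, C, fun v hv => ?_⟩
    rw [elow, size_eq]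
    exact hC v hv
  have toSe : LowPolynomial P X μ b → ∀ a, b < a → Se μ a := by
    intro h4 a ha
    set ζ : ℝ := min ((a - b) / 2) ((1 - b) / 2) with hζ
    have h0 : 0 < ζ := lt_min (by linarith) (by linarith)
    have h1 : ζ ≤ (a - b) / 2 := min_le_left _ _
    have h2 : ζ ≤ (1 - b) / 2 := min_le_right _ _
    obtain ⟨q, hq, hL⟩ := toLl h4 ζ h0
    exact boostL hS (b0 := b + ζ) (q := q) (by linarith) (by linarith) (by linarith) (by linarith) hL
      (by linarith)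
  have toOpt : LowTail P X μ b → ∀ ζ : ℝ, 0 < ζ → Opt μ b ζ := by
    intro h4 ζ hζ
    obtain ⟨C, hC⟩ := h4 ζ hζ
    refine ⟨max C 1, lt_max_of_lt_right one_pos, fun v hv s hs => ?_⟩
    have := hC v hv s hs
    rw [elow, size_eq] at this
    refine this.trans ?_
    gcongr
    exact le_max_left _ _
  tfae_have 1 → 2 := by
    intro h2
    refine fromLl fun ζ hζ => ?_
    set ζ' : ℝ := min ζ ((1 - b) / 2) with hζ'
    have k0 : 0 < ζ' := lt_min hζ (by linarith)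
    have k1 : ζ' ≤ ζ := min_le_left _ _
    have k2 : ζ' ≤ (1 - b) / 2 := min_le_right _ _
    obtain ⟨q, hq, hO⟩ := h2 (ζ' / 2) (by linarith) (by linarith)
    refine ⟨q, hq, Ll_mono (show b + ζ' ≤ b + ζ by linarith)
      (ll_of_outer hW hS hb k0 (by linarith) (by linarith) ?_)⟩
    simpa only [eleave] using hO
  tfae_have 2 → 5 := by
    intro h2 ζ hζ
    obtain ⟨C, hC, hU⟩ := cum_of_EE hS hb (fun a ha => EE_all hS hb (toSe h2) ha) hζ
    refine ⟨C, fun v hv θ hθ hθ1 => ?_⟩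
    rw [emom, size_eq]
    calc Real.exp (θ * mz μ v) * ph θ v ≤ Real.exp (θ * mz μ v) *
          Real.exp (-(θ * mz μ v) + C * (dd 0 v : ℝ) ^ ζ * (1 + θ ^ (1 / b) * (dd 0 v : ℝ))) := by
          have := hU v hv θ hθ hθ1
          gcongr
      _ = _ := by
          rw [← Real.exp_add]
          congr 1
          ring
  tfae_have 5 → 4 := by
    intro h5 ζ hζ
    have hCum : Cum μ b (ζ / 2) := by
      obtain ⟨C, hC⟩ := h5 (ζ / 2) (by positivity)
      refine ⟨max C 1, lt_max_of_lt_right one_pos, fun v hv θ hθ hθ1 => ?_⟩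
      have h1 := hC v hv θ hθ hθ1
      rw [emom, size_eq] at h1
      have h2 : ph θ v = Real.exp (-(θ * mz μ v)) * (Real.exp (θ * mz μ v) * ph θ v) := by
        rw [← mul_assoc, ← Real.exp_add, neg_add_cancel, Real.exp_zero, one_mul]
      rw [h2, Real.exp_add]
      refine mul_le_mul_of_nonneg_left (h1.trans (Real.exp_le_exp.2 ?_)) (Real.exp_pos _).le
      have : (0:ℝ) ≤ dd 0 v := Nat.cast_nonneg _
      gcongr
      exact le_max_left _ _
    obtain ⟨C, -, hC⟩ := opt_of_cum hS hb hb1 hζ hCum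
    refine ⟨C, fun v hv s hs => ?_⟩
    rw [elow, size_eq]
    exact hC v hv s hs
  tfae_have 4 → 3 := by
    intro h4 ζ hζ
    obtain ⟨C, -, hC⟩ := outer_of_opt (P := P) (X := X) hW hS hb hb1 hζ (toOpt h4 (ζ / 2) (by positivity))
    refine ⟨C, fun t ht r hr hr1 => ?_⟩
    rw [eleave]
    exact hC t ht r hr hr1
  tfae_have 3 → 1 := by
    intro h3 ζ hζ hζ1
    obtain ⟨C, hC⟩ := h3 (ζ / 2) (by positivity)
    set κ : ℝ := ζ / 2 / (1 - b) with hκ
    have hκ0 : 0 < κ := by positivity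
    set q : ℝ := 3 * (1 - b) + 1 with hq
    have hq0 : 0 < q := by rw [hq]; linarith
    obtain ⟨C1, hC1, hE⟩ := exp_poly (q / κ) (by positivity) (c := 1) one_pos
    refine ⟨q, by rw [hq]; linarith, Asymptotics.IsBigO.of_bound (max C 1 * C1) ?_⟩
    filter_upwards [eventually_ge_atTop 1] with t ht
    have ht0 : 0 < t := by linarith
    rw [Real.norm_eq_abs, abs_of_nonneg (by rw [eleave]; exact ENNReal.toReal_nonneg),
      Real.norm_eq_abs, abs_of_nonneg (by positivity)]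
    have h1 := hC t ht (t ^ (b - 1 + ζ)) (by positivity)
      (Real.rpow_le_one_of_one_le_of_nonpos ht (by linarith))
    refine h1.trans ?_
    have e1 : (t ^ (b - 1 + ζ) * t ^ (1 - b - ζ / 2)) ^ (1 / (1 - b)) = t ^ κ := by
      rw [← Real.rpow_add ht0, ← Real.rpow_mul ht0.le]
      congr 1
      rw [hκ]
      ring
    rw [e1, mul_assoc]
    have e2 := hE _ (Real.one_le_rpow ht hκ0.le)
    rw [one_mul, ← Real.rpow_mul ht0.le, show κ * -(q / κ) = -q by field_simp] at e2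
    have e3 := Real.exp_pos (-(t ^ κ))
    calc C * Real.exp (-(t ^ κ)) ≤ max C 1 * Real.exp (-(t ^ κ)) := by
          gcongr
          exact le_max_left _ _
      _ ≤ _ := by gcongr
  tfae_finish

end Pool.Agent.Results.MP_de94ef_pr.LowerTailExponent
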