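import Pool.Agent.Q70.FpI

/-!
# First-passage percolation: the second half of the shape question and the moments of passage times
-/

set_option autoImplicit false

open MeasureTheory ProbabilityTheory Filter
open scoped Pointwise

namespace Pool.Agent.Results.MP_de94ef_pr.UpperFluctuations

/-- The passage time from the origin to `v` for the edge weights `w`. -/
noncomputable def PassageTime (w : Sym2 (ℤ × ℤ) → ℝ) (v : ℤ × ℤ) : ℝ :=
  sInf {s : ℝ | ∃ n : ℕ, ∃ p : ℕ → ℤ × ℤ, p 0 = 0 ∧ p n = v ∧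
    (∀ i < n, |(p (i + 1)).1 - (p i).1| + |(p (i + 1)).2 - (p i).2| = 1) ∧
    s = ∑ i ∈ Finset.range n, w s(p i, p (i + 1))}

/-- The weights `X e` are independent exponential variables with parameter 1, and `μ` is the time
constant: a continuous function, homogeneous of degree 1, with `T(0, n z) / n → μ z` a.s. -/
structure Model {Ω : Type} [MeasurableSpace Ω] (P : Measure Ω) (X : Sym2 (ℤ × ℤ) → Ω → ℝ)
    (μ : ℝ × ℝ → ℝ) : Prop where
  measurable : ∀ e, Measurable (X e)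
  independent : iIndepFun X P
  exponential : ∀ e, Measure.map (X e) P = expMeasure 1
  homogeneous : ∀ (x : ℝ × ℝ) (c : ℝ), 0 ≤ c → μ (c • x) = c * μ x
  continuous : Continuous μ
  limit : ∀ z : ℤ × ℤ, ∀ᵐ ω ∂P,
    Tendsto (fun n : ℕ => PassageTime (fun e => X e ω) ((n : ℤ) • z) / (n : ℝ)) atTop
      (nhds (μ ((z.1 : ℝ), (z.2 : ℝ))))

/-- The norm `|v₁| + |v₂|` of a lattice point. -/
noncomputable def size (v : ℤ × ℤ) : ℝ := |(v.1 : ℝ)| + |(v.2 : ℝ)|

/-- The time constant at a lattice point. -/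
noncomputable def mu (μ : ℝ × ℝ → ℝ) (v : ℤ × ℤ) : ℝ := μ ((v.1 : ℝ), (v.2 : ℝ))

/-- The fattened cluster at time `t`. -/
def Cluster (w : Sym2 (ℤ × ℤ) → ℝ) (t : ℝ) : Set (ℝ × ℝ) :=
  {x : ℝ × ℝ | ∃ v : ℤ × ℤ, PassageTime w v ≤ t ∧
    |x.1 - (v.1 : ℝ)| ≤ 1 / 2 ∧ |x.2 - (v.2 : ℝ)| ≤ 1 / 2}

section

variable {Ω : Type} [MeasurableSpace Ω] (P : Measure Ω) (X : Sym2 (ℤ × ℤ) → Ω → ℝ)
  (μ : ℝ × ℝ → ℝ)

/-- The probability that the cluster at time `t` misses a part of `(1 - t ^ (b - 1 + ζ)) t 𝔸`, where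
`𝔸` is the limit shape. -/
noncomputable def missProb (b ζ t : ℝ) : ℝ :=
  (P {ω | ¬ (((1 - t ^ (b - 1 + ζ)) * t) • {x : ℝ × ℝ | μ x ≤ 1} ⊆
    Cluster (fun e => X e ω) t)}).toReal

/-- The probability that `T(0, v) > μ(v) + |v| ^ a`. -/
noncomputable def upProb (a : ℝ) (v : ℤ × ℤ) : ℝ :=
  (P {ω | mu μ v + size v ^ a < PassageTime (fun e => X e ω) v}).toReal

/-- The probability that `T(0, v) < μ(v) - s`. -/
noncomputable def lowProb (s : ℝ) (v : ℤ × ℤ) : ℝ :=
  (P {ω | PassageTime (fun e => X e ω) v < mu μ v - s}).toReal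

/-- Second half of the question at the exponent `b`: rapid decay. -/
def InnerRapid (b : ℝ) : Prop := ∀ ζ : ℝ, 0 < ζ → ζ < 1 - b → ∀ q : ℝ, 0 < q →
  Asymptotics.IsBigO atTop (fun t : ℝ => missProb P X μ b ζ t) (fun t : ℝ => t ^ (-q))

/-- Second half of the question at the exponent `b`: some polynomial decay. -/
def InnerPolynomial (b : ℝ) : Prop := ∀ ζ : ℝ, 0 < ζ → ζ < 1 - b → ∃ δ : ℝ, 0 < δ ∧
  Asymptotics.IsBigO atTop (fun t : ℝ => missProb P X μ b ζ t) (fun t : ℝ => t ^ (-δ))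

/-- `T(0, v) > μ(v) + |v| ^ (b + ζ)` has probability `O(|v| ^ (-δ))` for some `δ > 0`. -/
def UpPolynomial (b : ℝ) : Prop := ∀ ζ : ℝ, 0 < ζ → ∃ δ : ℝ, 0 < δ ∧ ∃ C : ℝ,
  ∀ v : ℤ × ℤ, v ≠ 0 → upProb P X μ (b + ζ) v ≤ C * size v ^ (-δ)

/-- `T(0, v) > μ(v) + |v| ^ (b + ζ)` has probability `O(|v| ^ (-q))` for all `q > 0`. -/
def UpRapid (b : ℝ) : Prop := ∀ ζ : ℝ, 0 < ζ → ∀ q : ℝ, 0 < q → ∃ C : ℝ,
  ∀ v : ℤ × ℤ, v ≠ 0 → upProb P X μ (b + ζ) v ≤ C * size v ^ (-q)

/-- `T(0, v) < μ(v) - s` has probability `O(|v| s ^ (-1 / b + ζ))`, uniformly in `s ≥ 1`. -/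
def LowTail (b : ℝ) : Prop := ∀ ζ : ℝ, 0 < ζ → ∃ C : ℝ,
  ∀ v : ℤ × ℤ, v ≠ 0 → ∀ s : ℝ, 1 ≤ s → lowProb P X μ s v ≤ C * (size v * s ^ (-(1 / b) + ζ))

/-- The `p`-th moment of the positive part of `T(0, v) - μ(v)` is `O(|v| ^ (b p + ζ))`. -/
def PosMoment (b p : ℝ) : Prop := ∀ ζ : ℝ, 0 < ζ → ∃ C : ℝ, ∀ v : ℤ × ℤ, v ≠ 0 →
  ∫ ω, max (PassageTime (fun e => X e ω) v - mu μ v) 0 ^ p ∂P ≤ C * size v ^ (b * p + ζ)

/-- The `p`-th absolute moment of `T(0, v) - μ(v)` is `O(|v| ^ (b p + ζ))`. -/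
def AbsMoment (b p : ℝ) : Prop := ∀ ζ : ℝ, 0 < ζ → ∃ C : ℝ, ∀ v : ℤ × ℤ, v ≠ 0 →
  ∫ ω, |PassageTime (fun e => X e ω) v - mu μ v| ^ p ∂P ≤ C * size v ^ (b * p + ζ)

/-- The variance of `T(0, v)` is `O(|v| ^ (2 b + ζ))` and its mean is `μ(v) + O(|v| ^ (b + ζ))`. -/
def VarianceAndMean (b : ℝ) : Prop := ∀ ζ : ℝ, 0 < ζ → ∃ C : ℝ, ∀ v : ℤ × ℤ, v ≠ 0 →
  variance (fun ω => PassageTime (fun e => X e ω) v) P ≤ C * size v ^ (2 * b + ζ) ∧
  ∫ ω, PassageTime (fun e => X e ω) v ∂P - mu μ v ≤ C * size v ^ (b + ζ)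

end

open Q70.Fp

lemma passage_eq (w : Sym2 (ℤ × ℤ) → ℝ) (v : ℤ × ℤ) : PassageTime w v = TT w 0 v := by
  unfold PassageTime TT
  congr 1
  ext s
  constructor
  · rintro ⟨n, p, h1, h2, h3, h4⟩
    exact ⟨n, p, ⟨h1, h2, h3⟩, h4⟩
  · rintro ⟨n, p, ⟨h1, h2, h3⟩, h4⟩
    exact ⟨n, p, h1, h2, h3, h4⟩

lemma size_eq (v : ℤ × ℤ) : size v = (dd 0 v : ℝ) := by
  simp only [size, dd, Prod.fst_zero, Prod.snd_zero, sub_zero]
  push_cast [Nat.cast_natAbs]
  rfl

/-- For independent exponential edge weights on the square lattice and every exponent `b` between `0`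
and `1 / 2` the eight properties are equivalent. -/
theorem result {Ω : Type} [MeasurableSpace Ω] (P : Measure Ω) [IsProbabilityMeasure P]
    (X : Sym2 (ℤ × ℤ) → Ω → ℝ) (μ : ℝ × ℝ → ℝ) (hM : Model P X μ) (b : ℝ) (hb : 0 < b)
    (hb2 : b < 1 / 2) :
    List.TFAE [
      InnerRapid P X μ b,
      InnerPolynomial P X μ b,
      UpPolynomial P X μ b,
      UpRapid P X μ b ∧ LowTail P X μ b,
      ∃ p : ℝ, 0 < p ∧ PosMoment P X μ b p,
      ∀ p : ℝ, 0 < p → PosMoment P X μ b p,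
      ∀ p : ℝ, 0 < p → p < 1 / b → AbsMoment P X μ b p,
      VarianceAndMean P X μ b] := by
  have hW : Wts P X := ⟨hM.measurable, hM.independent, hM.exponential⟩
  have hS : Shape μ := hW.shape hM.homogeneous hM.continuous (by
    intro z
    filter_upwards [hM.limit z] with ω hω
    simpa only [passage_eq] using hω)
  have hb1 : b < 1 := by linarith
  -- translation of the probabilities
  have eup : ∀ a v, upProb P X μ a v = nu.real {w | mz μ v + (dd 0 v : ℝ) ^ a < TT (pw w) 0 v} := by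
    intro a v
    have := hW.real v (measurableSet_Ioi (a := mz μ v + (dd 0 v : ℝ) ^ a))
    unfold upProb
    rw [size_eq]
    simp only [passage_eq]
    exact this
  have elow : ∀ s v, lowProb P X μ s v = nu.real {w | TT (pw w) 0 v < mz μ v - s} := by
    intro s v
    have := hW.real v (measurableSet_Iio (a := mz μ v - s))
    unfold lowProb
    simp only [passage_eq]
    exact this
  have emiss : ∀ ζ t, missProb P X μ b ζ t =
      (P (Fl X μ ((1 - t ^ (b - 1 + ζ)) * t) t)).toReal := by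
    intro ζ t
    unfold missProb Fl Cluster
    simp only [passage_eq]
  have epos : ∀ (p : ℝ) v, ∫ ω, max (PassageTime (fun e => X e ω) v - mu μ v) 0 ^ p ∂P =
      ∫ w, max (TT (pw w) 0 v - mz μ v) 0 ^ p ∂nu := by
    intro p v
    simp only [passage_eq]
    exact hW.int v (g := fun x => max (x - mz μ v) 0 ^ p)
      (((measurable_id.sub_const _).max measurable_const).pow_const p)
  have eabs : ∀ (p : ℝ) v, ∫ ω, |PassageTime (fun e => X e ω) v - mu μ v| ^ p ∂P =
      ∫ w, |TT (pw w) 0 v - mz μ v| ^ p ∂nu := by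
    intro p v
    simp only [passage_eq]
    exact hW.int v (g := fun x => |x - mz μ v| ^ p)
      ((continuous_abs.measurable.comp (measurable_id.sub_const _)).pow_const p)
  have emean : ∀ v, ∫ ω, PassageTime (fun e => X e ω) v ∂P = ∫ w, TT (pw w) 0 v ∂nu := by
    intro v
    simp only [passage_eq]
    exact hW.int v (g := fun x => x) measurable_id
  have evar : ∀ v, variance (fun ω => PassageTime (fun e => X e ω) v) P =
      variance (fun w => TT (pw w) 0 v) nu := by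
    intro v
    simp only [passage_eq]
    exact hW.var v
  -- polynomial one-point bounds in the form of the library
  have toTl : UpPolynomial P X μ b → ∀ ζ : ℝ, 0 < ζ → ∃ δ : ℝ, 0 < δ ∧ Tl μ (b + ζ) δ := by
    intro h3 ζ hζ
    obtain ⟨δ, hδ, C, hC⟩ := h3 ζ hζ
    refine ⟨δ, hδ, max C 1, lt_max_of_lt_right one_pos, fun v hv => ?_⟩
    have := hC v hv
    rw [eup, size_eq] at this
    refine this.trans ?_
    gcongr
    exact le_max_left _ _
  have fromTl : (∀ ζ : ℝ, 0 < ζ → ∃ δ : ℝ, 0 < δ ∧ Tl μ (b + ζ) δ) → UpPolynomial P X μ b := by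
    intro h3 ζ hζ
    obtain ⟨δ, hδ, C, -, hC⟩ := h3 ζ hζ
    refine ⟨δ, hδ, C, fun v hv => ?_⟩
    rw [eup, size_eq]
    exact hC v hv
  have toHH : UpPolynomial P X μ b → ∀ a, b < a → HH μ a := fun h3 a ha =>
    boost hS hb hb1 (toTl h3) ha
  have hdd1 : ∀ v : ℤ × ℤ, v ≠ 0 → (1:ℝ) ≤ dd 0 v := fun v hv => by exact_mod_cast dd_pos hv
  -- integrability of the positive part
  have hposint : ∀ p : ℝ, 0 < p → ∀ v : ℤ × ℤ, v ≠ 0 →
      Integrable (fun w => max (TT (pw w) 0 v - mz μ v) 0 ^ p) nu := by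
    intro p hp v hv
    obtain ⟨C, -, hC⟩ := pos_moment hS (a := 2) (by norm_num) (HH_two hS) hp
    exact (hC v hv).1
  tfae_have 1 → 2 := fun h1 ζ hζ hζ1 => ⟨1, one_pos, h1 ζ hζ hζ1 1 one_pos⟩
  tfae_have 2 → 3 := by
    intro h2
    refine fromTl (tl_of_inner hW hS hb hb1 ?_)
    intro ζ hζ hζ1
    obtain ⟨δ, hδ, hO⟩ := h2 ζ hζ hζ1
    refine ⟨δ, hδ, ?_⟩
    simpa only [emiss] using hO
  tfae_have 3 → 1 := by
    intro h3 ζ hζ hζ1 q hq
    have := inner_of_HH (P := P) (X := X) hW hS hb (toHH h3) hζ hζ1 hq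
    simpa only [emiss] using this
  tfae_have 3 → 4 := by
    intro h3
    refine ⟨?_, ?_⟩
    · intro ζ hζ q hq
      obtain ⟨C, -, hC⟩ := toHH h3 (b + ζ) (by linarith) q hq
      refine ⟨C, fun v hv => ?_⟩
      rw [eup, size_eq]
      exact hC v hv
    · intro ζ hζ
      set ε : ℝ := min (b * ζ) (1 / 2) with hε
      have hε0 : 0 < ε := lt_min (by positivity) (by norm_num)
      have hε1 : ε ≤ b * ζ := min_le_left _ _
      have hε2 : ε ≤ 1 / 2 := min_le_right _ _
      have ha1 : b * (1 + ε) < 1 := by nlinarith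
      obtain ⟨C, hC0, hC⟩ := lower_tail hS (a := b * (1 + ε)) (by positivity) ha1
        (toHH h3 _ (by nlinarith))
      refine ⟨C, fun v hv s hs => ?_⟩
      rw [elow, size_eq]
      refine (hC v hv s (by linarith)).trans ?_
      have e1 : -(1 / (b * (1 + ε))) ≤ -(1 / b) + ζ := by
        have e2 : 1 / b - ζ ≤ 1 / (b * (1 + ε)) := by
          rw [le_div_iff₀ (by positivity)]
          have e3 : (1 / b - ζ) * (b * (1 + ε)) = (1 - b * ζ) * (1 + ε) := by
            field_simp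
          rw [e3]
          nlinarith [mul_pos hb hζ]
        linarith
      have e4 : s ^ (-(1 / (b * (1 + ε)))) ≤ s ^ (-(1 / b) + ζ) :=
        Real.rpow_le_rpow_of_exponent_le hs e1
      gcongr
  tfae_have 4 → 3 := fun h4 ζ hζ => ⟨1, one_pos, h4.1 ζ hζ 1 one_pos⟩
  tfae_have 3 → 6 := by
    intro h3 p hp ζ hζ
    obtain ⟨C, hC0, hC⟩ := pos_moment hS (a := b + ζ / p) (by positivity)
      (toHH h3 _ (by have : 0 < ζ / p := by positivity
                     linarith)) hp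
    refine ⟨C, fun v hv => ?_⟩
    rw [epos, size_eq]
    refine (hC v hv).2.trans (le_of_eq ?_)
    congr 2
    field_simp
  tfae_have 6 → 5 := fun h6 => ⟨1, one_pos, h6 1 one_pos⟩
  tfae_have 5 → 3 := by
    rintro ⟨p, hp, h5⟩
    refine fromTl (tl_of_moment hp ?_)
    intro ζ hζ
    obtain ⟨C, hC⟩ := h5 ζ hζ
    refine ⟨C, fun v hv => ⟨hposint p hp v hv, ?_⟩⟩
    have := hC v hv
    rwa [epos, size_eq] at this
  tfae_have 3 → 7 := by
    intro h3 p hp hpb ζ hζ
    have hpb' : p * b < 1 := by rwa [lt_div_iff₀ hb] at hpb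
    set η : ℝ := min ζ ((1 - p * b) / 2) with hη
    have hη0 : 0 < η := lt_min hζ (by linarith)
    have hη1 : η ≤ ζ := min_le_left _ _
    have hη2 : η ≤ (1 - p * b) / 2 := min_le_right _ _
    set a : ℝ := min (b + η / p) ((b + 1) / 2) with ha
    have hab : b < a := lt_min (by have : 0 < η / p := by positivity
                                   linarith) (by linarith)
    have ha1 : a < 1 := lt_of_le_of_lt (min_le_right _ _) (by linarith)
    have hap : a * p ≤ b * p + η := by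
      calc a * p ≤ (b + η / p) * p := by
            gcongr
            exact min_le_left _ _
        _ = b * p + η := by field_simp
    obtain ⟨C, hC0, hC⟩ := two_moment hS (a := a) (by linarith) ha1 (toHH h3 _ hab) hp (by nlinarith)
    refine ⟨C, fun v hv => ?_⟩
    rw [eabs, size_eq]
    refine (hC v hv).2.trans ?_
    have := hdd1 v hv
    have e1 : (dd 0 v : ℝ) ^ (a * p) ≤ (dd 0 v : ℝ) ^ (b * p + ζ) :=
      Real.rpow_le_rpow_of_exponent_le this (by linarith)
    gcongr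
  tfae_have 7 → 3 := by
    intro h7
    refine fromTl (tl_of_moment one_pos ?_)
    intro ζ hζ
    obtain ⟨C, hC⟩ := h7 1 one_pos (by rw [lt_div_iff₀ hb]; linarith) ζ hζ
    refine ⟨C, fun v hv => ⟨hposint 1 one_pos v hv, ?_⟩⟩
    have h1 := hC v hv
    rw [eabs, size_eq] at h1
    refine le_trans (integral_mono (hposint 1 one_pos v hv) ?_ fun w => ?_) h1
    · simp only [Real.rpow_one]
      exact ((integrable_TT 0 v).sub (integrable_const _)).abs
    · simp only [Real.rpow_one]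
      exact max_le (le_abs_self _) (abs_nonneg _)
  tfae_have 3 → 8 := by
    intro h3 ζ hζ
    set a : ℝ := min (b + ζ / 2) ((b + 1 / 2) / 2) with ha
    have hab : b < a := lt_min (by linarith) (by linarith)
    have ha2 : a ≤ b + ζ / 2 := min_le_left _ _
    have ha3 : a ≤ (b + 1 / 2) / 2 := min_le_right _ _
    have ha0 : 0 < a := by linarith
    obtain ⟨C1, hC1, h1⟩ := two_moment hS (a := a) ha0 (by linarith) (toHH h3 _ hab) two_pos
      (by linarith)
    obtain ⟨C2, hC2, h2⟩ := abs_moment hS ha0 (toHH h3 _ hab)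
    refine ⟨max C1 C2, fun v hv => ?_⟩
    have hv1 := hdd1 v hv
    rw [evar, emean, size_eq]
    constructor
    · have e1 : variance (fun w => TT (pw w) 0 v) nu =
          variance (fun w => TT (pw w) 0 v - mz μ v) nu :=
        (variance_sub_const (measurable_TT 0 v).aestronglyMeasurable _).symm
      rw [e1]
      refine (variance_le_expectation_sq
        ((measurable_TT 0 v).sub_const _).aestronglyMeasurable).trans ?_
      have e2 : ∫ w, ((fun w => TT (pw w) 0 v - mz μ v) ^ 2) w ∂nu =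
          ∫ w, |TT (pw w) 0 v - mz μ v| ^ (2:ℝ) ∂nu := by
        refine integral_congr_ae (Eventually.of_forall fun w => ?_)
        simp
      rw [e2]
      refine (h1 v hv).2.trans ?_
      have e3 : (dd 0 v : ℝ) ^ (a * 2) ≤ (dd 0 v : ℝ) ^ (2 * b + ζ) :=
        Real.rpow_le_rpow_of_exponent_le hv1 (by linarith)
      calc C1 * (dd 0 v : ℝ) ^ (a * 2) ≤ max C1 C2 * (dd 0 v : ℝ) ^ (2 * b + ζ) := by
            gcongr
            exact le_max_left _ _
        _ = _ := rfl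
    · have e1 : ∫ w, TT (pw w) 0 v ∂nu - mu μ v ≤ ∫ w, |TT (pw w) 0 v - mz μ v| ∂nu := by
        have e2 : ∫ w, TT (pw w) 0 v ∂nu - mu μ v = ∫ w, (TT (pw w) 0 v - mz μ v) ∂nu := by
          rw [integral_sub (integrable_TT 0 v) (integrable_const _)]
          simp [mu, mz]
        rw [e2]
        exact integral_mono ((integrable_TT 0 v).sub (integrable_const _))
          ((integrable_TT 0 v).sub (integrable_const _)).abs fun w => le_abs_self _
      refine e1.trans ((h2 v hv).trans ?_)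
      have e3 : (dd 0 v : ℝ) ^ a ≤ (dd 0 v : ℝ) ^ (b + ζ) :=
        Real.rpow_le_rpow_of_exponent_le hv1 (by linarith)
      calc C2 * (dd 0 v : ℝ) ^ a ≤ max C1 C2 * (dd 0 v : ℝ) ^ (b + ζ) := by
            gcongr
            exact le_max_right _ _
        _ = _ := rfl
  tfae_have 8 → 3 := by
    intro h8
    refine fromTl ?_
    intro ζ hζ
    obtain ⟨C, hC⟩ := h8 (ζ / 2) (by positivity)
    have hbig := (tendsto_natCast_atTop_atTop (R := ℝ)).eventually
      (rpow_small (K := 2 * max C 1) (show b + ζ / 2 < b + ζ by linarith))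
    refine ⟨ζ, hζ, of_ev (fun v => measureReal_le_one) hζ
      (show 0 < 4 * max C 1 by have : 0 < max C 1 := lt_max_of_lt_right one_pos
                               positivity) ?_⟩
    filter_upwards [hbig, eventually_ge_atTop 1] with n hn hn1 v hv
    have hv0 : v ≠ 0 := by
      rintro rfl
      rw [dd_self] at hv
      omega
    have hnr : (1:ℝ) ≤ n := by exact_mod_cast hn1
    have hn0 : (0:ℝ) < n := by linarith
    obtain ⟨v1, v2⟩ := hC v hv0
    rw [evar, size_eq, hv] at v1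
    rw [emean, size_eq, hv] at v2
    have v2' : ∫ w, TT (pw w) 0 v ∂nu - mz μ v ≤ (n:ℝ) ^ (b + ζ) / 2 := by
      have e1 : C * (n:ℝ) ^ (b + ζ / 2) ≤ max C 1 * (n:ℝ) ^ (b + ζ / 2) := by
        gcongr
        exact le_max_left _ _
      have e2 : ∫ w, TT (pw w) 0 v ∂nu - mz μ v ≤ C * (n:ℝ) ^ (b + ζ / 2) := v2
      linarith
    have hcheb := meas_ge_le_variance_div_sq (memLp_TT v) (c := (n:ℝ) ^ (b + ζ) / 2) (by positivity)
    have e3 : nu.real {w | mz μ v + (n:ℝ) ^ (b + ζ) < TT (pw w) 0 v} ≤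
        variance (fun w => TT (pw w) 0 v) nu / ((n:ℝ) ^ (b + ζ) / 2) ^ 2 := by
      have e4 : nu {w | mz μ v + (n:ℝ) ^ (b + ζ) < TT (pw w) 0 v} ≤
          ENNReal.ofReal (variance (fun w => TT (pw w) 0 v) nu / ((n:ℝ) ^ (b + ζ) / 2) ^ 2) := by
        refine (measure_mono ?_).trans hcheb
        intro w hw
        simp only [Set.mem_setOf_eq] at hw ⊢
        rw [le_abs]
        left
        linarith
      exact ENNReal.toReal_le_of_le_ofReal (div_nonneg (variance_nonneg _ _) (sq_nonneg _)) e4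
    rw [hv]
    refine e3.trans ?_
    have e5 : ((n:ℝ) ^ (b + ζ)) ^ 2 = (n:ℝ) ^ (2 * b + 2 * ζ) := by
      rw [← Real.rpow_natCast, ← Real.rpow_mul hn0.le]; congr 1; push_cast; ring
    have e6 : (n:ℝ) ^ (2 * b + ζ / 2) ≤ (n:ℝ) ^ (-ζ) * (n:ℝ) ^ (2 * b + 2 * ζ) := by
      rw [← Real.rpow_add hn0]
      exact Real.rpow_le_rpow_of_exponent_le hnr (by linarith)
    have e7 : variance (fun w => TT (pw w) 0 v) nu ≤ max C 1 * (n:ℝ) ^ (2 * b + ζ / 2) := by
      refine v1.trans ?_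
      gcongr
      exact le_max_left _ _
    rw [div_pow, e5, div_le_iff₀ (by positivity)]
    have e8 : max C 1 * (n:ℝ) ^ (2 * b + ζ / 2) ≤ max C 1 * ((n:ℝ) ^ (-ζ) * (n:ℝ) ^ (2 * b + 2 * ζ)) := by
      gcongr
    calc _ ≤ max C 1 * ((n:ℝ) ^ (-ζ) * (n:ℝ) ^ (2 * b + 2 * ζ)) := e7.trans e8
      _ = _ := by ring
  tfae_finish

end Pool.Agent.Results.MP_de94ef_pr.UpperFluctuations
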