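import Pool.Agent.Q70.FpR

/-!
# First-passage percolation: the upper tail, and both tails together
-/

set_option autoImplicit false

open MeasureTheory ProbabilityTheory Filter
open scoped Pointwise

namespace Pool.Agent.Results.MP_de94ef_pr.UpperTailExponent

/-- The passage time from the origin to `v` for the edge weights `w`. -/
noncomputable def PassageTime (w : Sym2 (ℤ × ℤ) → ℝ) (v : ℤ × ℤ) : ℝ :=
  sInf {s : ℝ | ∃ n : ℕ, ∃ p : ℕ → ℤ × ℤ, p 0 = 0 ∧ p n = v ∧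
    (∀ i < n, |(p (i + 1)).1 - (p i).1| + |(p (i + 1)).2 - (p i).2| = 1) ∧
    s = ∑ i ∈ Finset.range n, w s(p i, p (i + 1))}

/-- The weights `X e` are independent exponential variables with parameter 1, and `μ` is the time
constant: a continuous function, homogeneous of degree 1, with `T(0, n z) / n → μ z` a.s. -/
structure Model {Ω : Type} [MeasurableSpace Ω] (P : Measure Ω) (X : Sym2 (ℤ × ℤ) → Ω → ℝ)
    (μ : ℝ × ℝ → ℝ) : Prop where
  measurable : ∀ e, Measurable (X e)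
  independent : iIndepFun X P
  exponential : ∀ e, Measure.map (X e) P = expMeasure 1
  homogeneous : ∀ (x : ℝ × ℝ) (c : ℝ), 0 ≤ c → μ (c • x) = c * μ x
  continuous : Continuous μ
  limit : ∀ z : ℤ × ℤ, ∀ᵐ ω ∂P,
    Tendsto (fun n : ℕ => PassageTime (fun e => X e ω) ((n : ℤ) • z) / (n : ℝ)) atTop
      (nhds (μ ((z.1 : ℝ), (z.2 : ℝ))))

/-- The norm `|v₁| + |v₂|` of a lattice point. -/
noncomputable def size (v : ℤ × ℤ) : ℝ := |(v.1 : ℝ)| + |(v.2 : ℝ)|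

/-- The time constant at a lattice point. -/
noncomputable def mu (μ : ℝ × ℝ → ℝ) (v : ℤ × ℤ) : ℝ := μ ((v.1 : ℝ), (v.2 : ℝ))

/-- The fattened cluster at time `t`. -/
def Cluster (w : Sym2 (ℤ × ℤ) → ℝ) (t : ℝ) : Set (ℝ × ℝ) :=
  {x : ℝ × ℝ | ∃ v : ℤ × ℤ, PassageTime w v ≤ t ∧
    |x.1 - (v.1 : ℝ)| ≤ 1 / 2 ∧ |x.2 - (v.2 : ℝ)| ≤ 1 / 2}

section

variable {Ω : Type} [MeasurableSpace Ω] (P : Measure Ω) (X : Sym2 (ℤ × ℤ) → Ω → ℝ)
  (μ : ℝ × ℝ → ℝ)

/-- The probability that the cluster at time `t` is not contained in `(1 + r) t 𝔸`, where `𝔸` is the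
limit shape. -/
noncomputable def leaveProb (r t : ℝ) : ℝ :=
  (P {ω | ¬ (Cluster (fun e => X e ω) t ⊆ ((1 + r) * t) • {x : ℝ × ℝ | μ x ≤ 1})}).toReal

/-- The probability that the cluster at time `t` misses a part of `(1 - r) t 𝔸`. -/
noncomputable def missProb (r t : ℝ) : ℝ :=
  (P {ω | ¬ (((1 - r) * t) • {x : ℝ × ℝ | μ x ≤ 1} ⊆ Cluster (fun e => X e ω) t)}).toReal

/-- The probability that the cluster at time `t` is not between `(1 - r) t 𝔸` and `(1 + r) t 𝔸`. -/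
noncomputable def shapeProb (r t : ℝ) : ℝ :=
  (P {ω | ¬ (((1 - r) * t) • {x : ℝ × ℝ | μ x ≤ 1} ⊆ Cluster (fun e => X e ω) t ∧
    Cluster (fun e => X e ω) t ⊆ ((1 + r) * t) • {x : ℝ × ℝ | μ x ≤ 1})}).toReal

/-- The probability that `T(0, v) > μ(v) + s`. -/
noncomputable def upProb (s : ℝ) (v : ℤ × ℤ) : ℝ :=
  (P {ω | mu μ v + s < PassageTime (fun e => X e ω) v}).toReal

/-- The probability that `|T(0, v) - μ(v)| > s`. -/
noncomputable def devProb (s : ℝ) (v : ℤ × ℤ) : ℝ :=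
  (P {ω | s < |PassageTime (fun e => X e ω) v - mu μ v|}).toReal

/-- First half of the question at the exponent `b`. -/
def OuterRapid (b : ℝ) : Prop := ∀ ζ : ℝ, 0 < ζ → ζ < 1 - b → ∀ q : ℝ, 0 < q →
  Asymptotics.IsBigO atTop (fun t : ℝ => leaveProb P X μ (t ^ (b - 1 + ζ)) t) (fun t : ℝ => t ^ (-q))

/-- Second half of the question at the exponent `b`. -/
def InnerRapid (b : ℝ) : Prop := ∀ ζ : ℝ, 0 < ζ → ζ < 1 - b → ∀ q : ℝ, 0 < q →
  Asymptotics.IsBigO atTop (fun t : ℝ => missProb P X μ (t ^ (b - 1 + ζ)) t) (fun t : ℝ => t ^ (-q))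

/-- Second half of the question at the exponent `b`, with some polynomial rate. -/
def InnerPolynomial (b : ℝ) : Prop := ∀ ζ : ℝ, 0 < ζ → ζ < 1 - b → ∃ δ : ℝ, 0 < δ ∧
  Asymptotics.IsBigO atTop (fun t : ℝ => missProb P X μ (t ^ (b - 1 + ζ)) t) (fun t : ℝ => t ^ (-δ))

/-- `T(0, v) > μ(v) + |v| ^ (b + ζ)` has probability `O(|v| ^ (-δ))` for some `δ > 0`. -/
def UpPolynomial (b : ℝ) : Prop := ∀ ζ : ℝ, 0 < ζ → ∃ δ : ℝ, 0 < δ ∧ ∃ C : ℝ,
  ∀ v : ℤ × ℤ, v ≠ 0 → upProb P X μ (size v ^ (b + ζ)) v ≤ C * size v ^ (-δ)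

/-- The cluster misses a part of `(1 - r) t 𝔸` with probability at most
`C exp (-(r t ^ (1 - b - ζ)) ^ (1 / (1 - b)))`. -/
def InnerTail (b : ℝ) : Prop := ∀ ζ : ℝ, 0 < ζ → ∃ C : ℝ, ∀ t : ℝ, 1 ≤ t → ∀ r : ℝ, 0 ≤ r → r < 1 →
  missProb P X μ r t ≤ C * Real.exp (-((r * t ^ (1 - b - ζ)) ^ (1 / (1 - b))))

/-- `T(0, v) > μ(v) + s` has probability at most `C exp (-(s / |v| ^ (b + ζ)) ^ (1 / (1 - b)))`. -/
def UpTail (b : ℝ) : Prop := ∀ ζ : ℝ, 0 < ζ → ∃ C : ℝ, ∀ v : ℤ × ℤ, v ≠ 0 → ∀ s : ℝ, 0 < s →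
  s ≤ size v → upProb P X μ s v ≤ C * Real.exp (-((s / size v ^ (b + ζ)) ^ (1 / (1 - b))))

/-- `E exp (θ (T(0, v) - μ(v))) ≤ exp (C |v| ^ ζ (1 + θ ^ (1 / b) |v|))` for `0 < θ ≤ 1 / 2`. -/
def UpMoment (b : ℝ) : Prop := ∀ ζ : ℝ, 0 < ζ → ∃ C : ℝ, ∀ v : ℤ × ℤ, v ≠ 0 → ∀ θ : ℝ, 0 < θ →
  θ ≤ 1 / 2 → ∫ ω, Real.exp (θ * (PassageTime (fun e => X e ω) v - mu μ v)) ∂P ≤
    Real.exp (C * size v ^ ζ * (1 + θ ^ (1 / b) * size v))

/-- The cluster is not between `(1 - r) t 𝔸` and `(1 + r) t 𝔸` with probability at most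
`C exp (-(r t ^ (1 - b - ζ)) ^ (1 / (1 - b)))`. -/
def ShapeTail (b : ℝ) : Prop := ∀ ζ : ℝ, 0 < ζ → ∃ C : ℝ, ∀ t : ℝ, 1 ≤ t → ∀ r : ℝ, 0 ≤ r → r < 1 →
  shapeProb P X μ r t ≤ C * Real.exp (-((r * t ^ (1 - b - ζ)) ^ (1 / (1 - b))))

/-- `|T(0, v) - μ(v)| > s` has probability at most
`C exp (-(s / |v| ^ (b + ζ)) ^ (1 / (1 - b)))`. -/
def TwoSidedTail (b : ℝ) : Prop := ∀ ζ : ℝ, 0 < ζ → ∃ C : ℝ, ∀ v : ℤ × ℤ, v ≠ 0 → ∀ s : ℝ, 0 < s →
  s ≤ size v → devProb P X μ s v ≤ C * Real.exp (-((s / size v ^ (b + ζ)) ^ (1 / (1 - b))))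

end

open Q70.Fp Q69.FL

lemma passage_eq (w : Sym2 (ℤ × ℤ) → ℝ) (v : ℤ × ℤ) : PassageTime w v = TT w 0 v := by
  unfold PassageTime TT
  congr 1
  ext s
  constructor
  · rintro ⟨n, p, h1, h2, h3, h4⟩
    exact ⟨n, p, ⟨h1, h2, h3⟩, h4⟩
  · rintro ⟨n, p, ⟨h1, h2, h3⟩, h4⟩
    exact ⟨n, p, h1, h2, h3, h4⟩

lemma size_eq (v : ℤ × ℤ) : size v = (dd 0 v : ℝ) := by
  simp only [size, dd, Prod.fst_zero, Prod.snd_zero, sub_zero]
  push_cast [Nat.cast_natAbs]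
  rfl

/-- the tails at a power of `t` -/
lemma rate_t {b : ℝ} (hb1 : b < 1) {ζ : ℝ} (hζ : 0 < ζ) (hζ1 : ζ < 1 - b) {F : ℝ → ℝ → ℝ}
    (hF0 : ∀ r t, 0 ≤ F r t)
    (hF : ∃ C : ℝ, ∀ t : ℝ, 1 ≤ t → ∀ r : ℝ, 0 ≤ r → r < 1 →
      F r t ≤ C * Real.exp (-((r * t ^ (1 - b - ζ / 2)) ^ (1 / (1 - b))))) {q : ℝ} (hq : 0 < q) :
    Asymptotics.IsBigO atTop (fun t : ℝ => F (t ^ (b - 1 + ζ)) t) (fun t : ℝ => t ^ (-q)) := by
  obtain ⟨C, hC⟩ := hF
  have hb' : 0 < 1 - b := by linarith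
  set κ : ℝ := ζ / 2 / (1 - b) with hκ
  have hκ0 : 0 < κ := by positivity
  obtain ⟨C1, hC1, hE⟩ := exp_poly (q / κ) (by positivity) (c := 1) one_pos
  refine Asymptotics.IsBigO.of_bound (max C 1 * C1) ?_
  filter_upwards [eventually_gt_atTop 1] with t ht
  have ht0 : 0 < t := by linarith
  rw [Real.norm_eq_abs, abs_of_nonneg (hF0 _ _), Real.norm_eq_abs, abs_of_nonneg (by positivity)]
  have h1 := hC t ht.le (t ^ (b - 1 + ζ)) (by positivity)
    (Real.rpow_lt_one_of_one_lt_of_neg ht (by linarith))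
  refine h1.trans ?_
  have e1 : (t ^ (b - 1 + ζ) * t ^ (1 - b - ζ / 2)) ^ (1 / (1 - b)) = t ^ κ := by
    rw [← Real.rpow_add ht0, ← Real.rpow_mul ht0.le]
    congr 1
    rw [hκ]
    ring
  rw [e1, mul_assoc]
  have e2 := hE _ (Real.one_le_rpow ht.le hκ0.le)
  rw [one_mul, ← Real.rpow_mul ht0.le, show κ * -(q / κ) = -q by field_simp] at e2
  have e3 := Real.exp_pos (-(t ^ κ))
  calc C * Real.exp (-(t ^ κ)) ≤ max C 1 * Real.exp (-(t ^ κ)) := by
        gcongr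
        exact le_max_left _ _
    _ ≤ _ := by gcongr

/-- the tails at a power of the distance -/
lemma rate_v {b : ℝ} (hb : 0 < b) (hb1 : b < 1) {F : ℝ → ℤ × ℤ → ℝ}
    (hmono : ∀ (s s' : ℝ) (v : ℤ × ℤ), s ≤ s' → F s' v ≤ F s v)
    (hF : ∀ ζ : ℝ, 0 < ζ → ∃ C : ℝ, ∀ v : ℤ × ℤ, v ≠ 0 → ∀ s : ℝ, 0 < s → s ≤ (dd 0 v : ℝ) →
      F s v ≤ C * Real.exp (-((s / (dd 0 v : ℝ) ^ (b + ζ)) ^ (1 / (1 - b)))))
    {ζ : ℝ} (hζ : 0 < ζ) {q : ℝ} (hq : 0 < q) :
    ∃ C : ℝ, 0 < C ∧ ∀ v : ℤ × ℤ, v ≠ 0 → F ((dd 0 v : ℝ) ^ (b + ζ)) v ≤ C * (dd 0 v : ℝ) ^ (-q) := by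
  set ζ' : ℝ := min ζ (1 - b) with hζ'
  have k0 : 0 < ζ' := lt_min hζ (by linarith)
  have k1 : ζ' ≤ ζ := min_le_left _ _
  have k2 : ζ' ≤ 1 - b := min_le_right _ _
  obtain ⟨C, hC⟩ := hF (ζ' / 2) (by positivity)
  have hb' : 0 < 1 - b := by linarith
  set κ : ℝ := ζ' / 2 / (1 - b) with hκ
  have hκ0 : 0 < κ := by positivity
  obtain ⟨C1, hC1, hE⟩ := exp_poly (q / κ) (by positivity) (c := 1) one_pos
  refine ⟨max C 1 * C1, by positivity, fun v hv => ?_⟩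
  have hn1 : (1:ℝ) ≤ dd 0 v := by exact_mod_cast dd_pos hv
  have hn0 : (0:ℝ) < dd 0 v := by linarith
  have h1 : F ((dd 0 v : ℝ) ^ (b + ζ)) v ≤ F ((dd 0 v : ℝ) ^ (b + ζ')) v :=
    hmono _ _ _ (Real.rpow_le_rpow_of_exponent_le hn1 (by linarith))
  have h2 : (dd 0 v : ℝ) ^ (b + ζ') ≤ dd 0 v := by
    conv_rhs => rw [← Real.rpow_one (dd 0 v : ℝ)]
    exact Real.rpow_le_rpow_of_exponent_le hn1 (by linarith)
  refine h1.trans ((hC v hv _ (by positivity) h2).trans ?_)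
  have e1 : ((dd 0 v : ℝ) ^ (b + ζ') / (dd 0 v : ℝ) ^ (b + ζ' / 2)) ^ (1 / (1 - b)) =
      (dd 0 v : ℝ) ^ κ := by
    rw [← Real.rpow_sub hn0, ← Real.rpow_mul hn0.le]
    congr 1
    rw [hκ]
    ring
  rw [e1, mul_assoc]
  have e2 := hE _ (Real.one_le_rpow hn1 hκ0.le)
  rw [one_mul, ← Real.rpow_mul hn0.le, show κ * -(q / κ) = -q by field_simp] at e2
  have e3 := Real.exp_pos (-((dd 0 v : ℝ) ^ κ))
  calc C * Real.exp (-((dd 0 v : ℝ) ^ κ)) ≤ max C 1 * Real.exp (-((dd 0 v : ℝ) ^ κ)) := by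
        gcongr
        exact le_max_left _ _
    _ ≤ _ := by gcongr

/-- For independent exponential edge weights on the square lattice and every exponent `b` between `0`
and `1` the first five properties are equivalent, and the last three properties are equivalent. -/
theorem result {Ω : Type} [MeasurableSpace Ω] (P : Measure Ω) [IsProbabilityMeasure P]
    (X : Sym2 (ℤ × ℤ) → Ω → ℝ) (μ : ℝ × ℝ → ℝ) (hM : Model P X μ) (b : ℝ) (hb : 0 < b)
    (hb1 : b < 1) :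
    List.TFAE [
      InnerPolynomial P X μ b,
      UpPolynomial P X μ b,
      InnerTail P X μ b,
      UpTail P X μ b,
      UpMoment P X μ b] ∧
    List.TFAE [
      OuterRapid P X μ b ∧ InnerRapid P X μ b,
      ShapeTail P X μ b,
      TwoSidedTail P X μ b] := by
  have hW : Wts P X := ⟨hM.measurable, hM.independent, hM.exponential⟩
  have hS : Shape μ := hW.shape hM.homogeneous hM.continuous (by
    intro z
    filter_upwards [hM.limit z] with ω hω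
    simpa only [passage_eq] using hω)
  have hb' : 0 < 1 - b := by linarith
  -- translation of the probabilities
  have eup : ∀ s v, upProb P X μ s v = nu.real {w | mz μ v + s < TT (pw w) 0 v} := by
    intro s v
    have := hW.real v (measurableSet_Ioi (a := mz μ v + s))
    unfold upProb
    simp only [passage_eq]
    exact this
  have edev : ∀ s v, devProb P X μ s v = nu.real {w | s < |TT (pw w) 0 v - mz μ v|} := by
    intro s v
    have := hW.real v (S := {x : ℝ | s < |x - mz μ v|})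
      (measurableSet_lt measurable_const (continuous_abs.measurable.comp (measurable_id.sub_const _)))
    unfold devProb
    simp only [passage_eq]
    exact this
  have eleave : ∀ r t, leaveProb P X μ r t = (P (Ou X μ ((1 + r) * t) t)).toReal := by
    intro r t
    unfold leaveProb Ou Cluster
    simp only [passage_eq]
  have emiss : ∀ r t, missProb P X μ r t = (P (Fl X μ ((1 - r) * t) t)).toReal := by
    intro r t
    unfold missProb Fl Cluster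
    simp only [passage_eq]
  have emom : ∀ θ v, ∫ ω, Real.exp (θ * (PassageTime (fun e => X e ω) v - mu μ v)) ∂P =
      uq μ θ v := by
    intro θ v
    simp only [passage_eq]
    exact hW.int v (g := fun x => Real.exp (θ * (x - mz μ v)))
      ((measurable_id.sub measurable_const).const_mul θ).exp
  have hdd1 : ∀ v : ℤ × ℤ, v ≠ 0 → (1:ℝ) ≤ dd 0 v := fun v hv => by exact_mod_cast dd_pos hv
  have toTl : UpPolynomial P X μ b → ∀ ζ : ℝ, 0 < ζ → ∃ δ : ℝ, 0 < δ ∧ Tl μ (b + ζ) δ := by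
    intro h3 ζ hζ
    obtain ⟨δ, hδ, C, hC⟩ := h3 ζ hζ
    refine ⟨δ, hδ, max C 1, lt_max_of_lt_right one_pos, fun v hv => ?_⟩
    have := hC v hv
    rw [eup, size_eq] at this
    refine this.trans ?_
    gcongr
    exact le_max_left _ _
  have fromTl : (∀ ζ : ℝ, 0 < ζ → ∃ δ : ℝ, 0 < δ ∧ Tl μ (b + ζ) δ) → UpPolynomial P X μ b := by
    intro h3 ζ hζ
    obtain ⟨δ, hδ, C, -, hC⟩ := h3 ζ hζ
    refine ⟨δ, hδ, C, fun v hv => ?_⟩
    rw [eup, size_eq]
    exact hC v hv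
  -- the upper side
  have upCum : UpPolynomial P X μ b → ∀ ζ : ℝ, 0 < ζ → CumU μ b ζ := by
    intro h2 ζ hζ
    have hH : ∀ a, b < a → HH μ a := fun a ha => boost hS hb hb1 (toTl h2) ha
    exact cumU_of_UU hS hb (fun a ha => UU_all hS hb (fun a ha => boostU hS hb hb1 hH ha) ha) hζ
  have momCum : UpMoment P X μ b → ∀ ζ : ℝ, 0 < ζ → CumU μ b ζ := by
    intro h5 ζ hζ
    obtain ⟨C, hC⟩ := h5 ζ hζ
    refine ⟨max C 1, lt_max_of_lt_right one_pos, fun v hv θ hθ hθ1 => ?_⟩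
    have h1 := hC v hv θ hθ hθ1
    rw [emom, size_eq] at h1
    refine h1.trans (Real.exp_le_exp.2 ?_)
    have : (0:ℝ) ≤ dd 0 v := Nat.cast_nonneg _
    gcongr
    exact le_max_left _ _
  have cumOpt : (∀ ζ : ℝ, 0 < ζ → CumU μ b ζ) → ∀ ζ : ℝ, 0 < ζ → OptU μ b ζ := fun h ζ hζ =>
    optU_of_cum hb hb1 hζ (h (ζ / 2) (by positivity))
  have innerTail : (∀ ζ : ℝ, 0 < ζ → OptU μ b ζ) → InnerTail P X μ b := by
    intro h ζ hζ
    obtain ⟨C, -, hC⟩ := inner_of_opt (P := P) (X := X) hW hS hb hb1 hζ (h (ζ / 2) (by positivity))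
    refine ⟨C, fun t ht r hr hr1 => ?_⟩
    rw [emiss]
    exact hC t ht r hr hr1
  have innerRapid : InnerTail P X μ b → InnerRapid P X μ b := fun h ζ hζ hζ1 q hq =>
    rate_t hb1 hζ hζ1 (fun r t => ENNReal.toReal_nonneg) (h (ζ / 2) (by positivity)) hq
  have innerPoly : InnerRapid P X μ b → InnerPolynomial P X μ b := fun h ζ hζ hζ1 =>
    ⟨1, one_pos, h ζ hζ hζ1 1 one_pos⟩
  have polyUp : InnerPolynomial P X μ b → UpPolynomial P X μ b := by
    intro h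
    refine fromTl (tl_of_inner hW hS hb hb1 ?_)
    intro ζ hζ hζ1
    obtain ⟨δ, hδ, hO⟩ := h ζ hζ hζ1
    refine ⟨δ, hδ, ?_⟩
    simpa only [emiss] using hO
  have upmono : ∀ (s s' : ℝ) (v : ℤ × ℤ), s ≤ s' → nu.real {w | mz μ v + s' < TT (pw w) 0 v} ≤
      nu.real {w | mz μ v + s < TT (pw w) 0 v} := by
    intro s s' v hs
    refine measureReal_mono ?_ (measure_ne_top _ _)
    intro w hw
    simp only [Set.mem_setOf_eq] at hw ⊢
    linarith
  have first : List.TFAE [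
      InnerPolynomial P X μ b,
      UpPolynomial P X μ b,
      InnerTail P X μ b,
      UpTail P X μ b,
      UpMoment P X μ b] := by
    tfae_have 1 → 2 := polyUp
    tfae_have 2 → 5 := by
      intro h2 ζ hζ
      obtain ⟨C, hC, hU⟩ := upCum h2 ζ hζ
      refine ⟨C, fun v hv θ hθ hθ1 => ?_⟩
      rw [emom, size_eq]
      exact hU v hv θ hθ hθ1
    tfae_have 5 → 4 := by
      intro h5 ζ hζ
      obtain ⟨C, -, hC⟩ := cumOpt (momCum h5) ζ hζ
      refine ⟨C, fun v hv s hs hs1 => ?_⟩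
      rw [size_eq] at hs1
      rw [eup, size_eq]
      exact hC v hv s hs (by linarith [hdd1 v hv])
    tfae_have 4 → 2 := by
      intro h4
      refine fromTl fun ζ hζ => ⟨1, one_pos, ?_⟩
      refine rate_v hb hb1 (F := fun s v => nu.real {w | mz μ v + s < TT (pw w) 0 v}) upmono ?_ hζ one_pos
      intro ζ' hζ'
      obtain ⟨C, hC⟩ := h4 ζ' hζ'
      refine ⟨C, fun v hv s hs hs1 => ?_⟩
      have := hC v hv s hs (by rw [size_eq]; exact hs1)
      rwa [eup, size_eq] at this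
    tfae_have 5 → 3 := fun h5 => innerTail (cumOpt (momCum h5))
    tfae_have 3 → 1 := fun h3 => innerPoly (innerRapid h3)
    tfae_finish
  refine ⟨first, ?_⟩
  -- the lower side
  have lowOpt : (∀ ζ : ℝ, 0 < ζ → ∃ q : ℝ, 3 * (1 - b) < q ∧ Ll μ (b + ζ) q) →
      ∀ ζ : ℝ, 0 < ζ → Opt μ b ζ := by
    intro h4 ζ hζ
    have hSe : ∀ a, b < a → Se μ a := by
      intro a ha
      set ζ' : ℝ := min ((a - b) / 2) ((1 - b) / 2) with hζ'
      have h0 : 0 < ζ' := lt_min (by linarith) (by linarith)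
      have h1 : ζ' ≤ (a - b) / 2 := min_le_left _ _
      have h2 : ζ' ≤ (1 - b) / 2 := min_le_right _ _
      obtain ⟨q, hq, hL⟩ := h4 ζ' h0
      exact boostL hS (b0 := b + ζ') (q := q) (by linarith) (by linarith) (by linarith)
        (by linarith) hL (by linarith)
    exact opt_of_cum hS hb hb1 hζ (cum_of_EE hS hb (fun a ha => EE_all hS hb hSe ha) (by positivity))
  have outerTail : (∀ ζ : ℝ, 0 < ζ → Opt μ b ζ) → ∀ ζ : ℝ, 0 < ζ → ∃ C : ℝ, ∀ t : ℝ, 1 ≤ t →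
      ∀ r : ℝ, 0 ≤ r → r < 1 →
      leaveProb P X μ r t ≤ C * Real.exp (-((r * t ^ (1 - b - ζ)) ^ (1 / (1 - b)))) := by
    intro h ζ hζ
    obtain ⟨C, -, hC⟩ := outer_of_opt (P := P) (X := X) hW hS hb hb1 hζ (h (ζ / 2) (by positivity))
    refine ⟨C, fun t ht r hr hr1 => ?_⟩
    rw [eleave]
    exact hC t ht r hr hr1.le
  have outerLl : OuterRapid P X μ b → ∀ ζ : ℝ, 0 < ζ → ∃ q : ℝ, 3 * (1 - b) < q ∧ Ll μ (b + ζ) q := by
    intro h2 ζ hζ
    set ζ' : ℝ := min ζ ((1 - b) / 2) with hζ'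
    have k0 : 0 < ζ' := lt_min hζ (by linarith)
    have k1 : ζ' ≤ ζ := min_le_left _ _
    have k2 : ζ' ≤ (1 - b) / 2 := min_le_right _ _
    have hO := h2 (ζ' / 2) (by linarith) (by linarith) (3 * (1 - b) + 1) (by linarith)
    refine ⟨3 * (1 - b) + 1, by linarith, Ll_mono (show b + ζ' ≤ b + ζ by linarith)
      (ll_of_outer hW hS hb k0 (by linarith) (by linarith) ?_)⟩
    simpa only [eleave] using hO
  have f12 : InnerPolynomial P X μ b ↔ UpPolynomial P X μ b := first.out 0 1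
  tfae_have 1 → 2 := by
    rintro ⟨h1, h2⟩ ζ hζ
    obtain ⟨C1, hC1⟩ := outerTail (lowOpt (outerLl h1)) ζ hζ
    obtain ⟨C2, hC2⟩ := innerTail (cumOpt (upCum (polyUp (innerPoly h2)))) ζ hζ
    refine ⟨C1 + C2, fun t ht r hr hr1 => ?_⟩
    have e1 := hC1 t ht r hr hr1
    have e2 := hC2 t ht r hr hr1
    have e3 : shapeProb P X μ r t ≤ missProb P X μ r t + leaveProb P X μ r t := by
      have hsub : {ω | ¬ (((1 - r) * t) • {x : ℝ × ℝ | μ x ≤ 1} ⊆ Cluster (fun e => X e ω) t ∧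
          Cluster (fun e => X e ω) t ⊆ ((1 + r) * t) • {x : ℝ × ℝ | μ x ≤ 1})} ⊆
          {ω | ¬ (((1 - r) * t) • {x : ℝ × ℝ | μ x ≤ 1} ⊆ Cluster (fun e => X e ω) t)} ∪
          {ω | ¬ (Cluster (fun e => X e ω) t ⊆ ((1 + r) * t) • {x : ℝ × ℝ | μ x ≤ 1})} := by
        intro ω hω
        by_contra hcon
        simp only [Set.mem_union, Set.mem_setOf_eq, not_or, not_not] at hcon
        exact hω hcon
      exact (measureReal_mono (μ := P) hsub (measure_ne_top _ _)).trans (measureReal_union_le _ _)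
    rw [add_mul]
    linarith
  tfae_have 2 → 1 := by
    intro h2
    have hle : ∀ r t, leaveProb P X μ r t ≤ shapeProb P X μ r t := fun r t =>
      measureReal_mono (μ := P) (fun ω hω hcon => hω hcon.2) (measure_ne_top _ _)
    have hmi : ∀ r t, missProb P X μ r t ≤ shapeProb P X μ r t := fun r t =>
      measureReal_mono (μ := P) (fun ω hω hcon => hω hcon.1) (measure_ne_top _ _)
    refine ⟨fun ζ hζ hζ1 q hq => rate_t hb1 hζ hζ1 (F := leaveProb P X μ)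
        (fun r t => ENNReal.toReal_nonneg) ?_ hq,
      fun ζ hζ hζ1 q hq => rate_t hb1 hζ hζ1 (F := missProb P X μ)
        (fun r t => ENNReal.toReal_nonneg) ?_ hq⟩
    · obtain ⟨C, hC⟩ := h2 (ζ / 2) (by positivity)
      exact ⟨C, fun t ht r hr hr1 => (hle r t).trans (hC t ht r hr hr1)⟩
    · obtain ⟨C, hC⟩ := h2 (ζ / 2) (by positivity)
      exact ⟨C, fun t ht r hr hr1 => (hmi r t).trans (hC t ht r hr hr1)⟩
  tfae_have 1 → 3 := by
    rintro ⟨h1, h2⟩ ζ hζ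
    obtain ⟨C1, -, hC1⟩ := lowOpt (outerLl h1) ζ hζ
    obtain ⟨C2, -, hC2⟩ := cumOpt (upCum (polyUp (innerPoly h2))) ζ hζ
    refine ⟨C1 + C2, fun v hv s hs hs1 => ?_⟩
    rw [size_eq] at hs1
    rw [edev, size_eq]
    have e1 := hC1 v hv s hs
    have e2 := hC2 v hv s hs (by linarith [hdd1 v hv])
    have hsub : {w : Ed → ℝ | s < |TT (pw w) 0 v - mz μ v|} ⊆
        {w | TT (pw w) 0 v < mz μ v - s} ∪ {w | mz μ v + s < TT (pw w) 0 v} := by
      intro w hw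
      have hw' : s < |TT (pw w) 0 v - mz μ v| := hw
      rcases lt_abs.1 hw' with h | h
      · exact Or.inr (show mz μ v + s < TT (pw w) 0 v by linarith)
      · exact Or.inl (show TT (pw w) 0 v < mz μ v - s by linarith)
    have e3 := (measureReal_mono (μ := nu) hsub (measure_ne_top _ _)).trans (measureReal_union_le _ _)
    rw [add_mul]
    linarith
  tfae_have 3 → 1 := by
    intro h3
    have hlo : ∀ s v, nu.real {w | TT (pw w) 0 v < mz μ v - s} ≤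
        nu.real {w | s < |TT (pw w) 0 v - mz μ v|} := by
      intro s v
      refine measureReal_mono ?_ (measure_ne_top _ _)
      intro w hw
      simp only [Set.mem_setOf_eq] at hw ⊢
      exact lt_abs.2 (Or.inr (by linarith))
    have hup : ∀ s v, nu.real {w | mz μ v + s < TT (pw w) 0 v} ≤
        nu.real {w | s < |TT (pw w) 0 v - mz μ v|} := by
      intro s v
      refine measureReal_mono ?_ (measure_ne_top _ _)
      intro w hw
      simp only [Set.mem_setOf_eq] at hw ⊢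
      exact lt_abs.2 (Or.inl (by linarith))
    have hdm : ∀ (s s' : ℝ) (v : ℤ × ℤ), s ≤ s' → nu.real {w | s' < |TT (pw w) 0 v - mz μ v|} ≤
        nu.real {w | s < |TT (pw w) 0 v - mz μ v|} := by
      intro s s' v hs
      refine measureReal_mono ?_ (measure_ne_top _ _)
      intro w hw
      simp only [Set.mem_setOf_eq] at hw ⊢
      linarith
    have hrate : ∀ ζ : ℝ, 0 < ζ → ∀ q : ℝ, 0 < q → ∃ C : ℝ, 0 < C ∧ ∀ v : ℤ × ℤ, v ≠ 0 →
        nu.real {w | (dd 0 v : ℝ) ^ (b + ζ) < |TT (pw w) 0 v - mz μ v|} ≤ C * (dd 0 v : ℝ) ^ (-q) := by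
      intro ζ hζ q hq
      refine rate_v hb hb1 (F := fun s v => nu.real {w | s < |TT (pw w) 0 v - mz μ v|}) hdm ?_ hζ hq
      intro ζ' hζ'
      obtain ⟨C, hC⟩ := h3 ζ' hζ'
      refine ⟨C, fun v hv s hs hs1 => ?_⟩
      have := hC v hv s hs (by rw [size_eq]; exact hs1)
      rwa [edev, size_eq] at this
    have hLl : ∀ ζ : ℝ, 0 < ζ → ∃ q : ℝ, 3 * (1 - b) < q ∧ Ll μ (b + ζ) q := by
      intro ζ hζ
      obtain ⟨C, hC, hr⟩ := hrate ζ hζ (3 * (1 - b) + 1) (by linarith)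
      exact ⟨3 * (1 - b) + 1, by linarith, C, hC, fun v hv => (hlo _ v).trans (hr v hv)⟩
    have hTl : UpPolynomial P X μ b := by
      refine fromTl fun ζ hζ => ?_
      obtain ⟨C, hC, hr⟩ := hrate ζ hζ 1 one_pos
      exact ⟨1, one_pos, C, hC, fun v hv => (hup _ v).trans (hr v hv)⟩
    refine ⟨fun ζ hζ hζ1 q hq => ?_, innerRapid (innerTail (cumOpt (upCum hTl)))⟩
    exact rate_t hb1 hζ hζ1 (fun r t => ENNReal.toReal_nonneg)
      (outerTail (lowOpt hLl) (ζ / 2) (by positivity)) hq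
  tfae_finish

end Pool.Agent.Results.MP_de94ef_pr.UpperTailExponent
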